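import Pool.Agent.Y779.CX.BIL2
import Pool.Agent.Y261.CX.BIL1
import Pool.Agent.Y333.CX.LAM
import Pool.Agent.R413.SQ.BIL
import Pool.Agent.R413.SQ.BOX

/-!
# Bilinear sums of products of quadratic and cubic symbols
-/

set_option autoImplicit false
set_option linter.unusedVariables false

open Finset

namespace Pool.Agent.H20PT.JL

open Pool.Agent.Y692.QS (Ei w)
open Pool.Agent.Y715.T.Rec (cs)
open Pool.Agent.Y715.T.RecG (Pq)
open Pool.Agent.Y699.E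
open Pool.Agent.Y703.CX (pp lam LamP)
open Pool.Agent.Y350.CT (pq_star)
open Pool.Agent.Y703.CQ (sg)
open Pool.Agent.Y779.CX (second holder xn xe xn_norm xe_norm pair_norm csumN nsum nrm_pp
  pp_dvd_iff pp_dvd_sub exists_nonres_nat exists_crt ez_val ez_val_ne nrm_nat nat_dvd_neg card_le_of)
open Pool.Agent.Y261.CX (Xi Xi_norm Xi_mul Xi_one Xi_per mult val_chi zz3)
open scoped ComplexConjugate

/-- the quadratic symbol of the norm -/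
noncomputable def qd (m : ℕ) (g : Ei) : ℂ := ((jacobiSym (Pool.Agent.Y692.QS.nr g) m : ℤ) : ℂ)

theorem jac_norm (a : ℤ) (m : ℕ) : ‖((jacobiSym a m : ℤ) : ℂ)‖ ≤ 1 := by
  rcases jacobiSym.trichotomy a m with h | h | h <;> rw [h] <;> simp

theorem qd_norm (m : ℕ) (g : Ei) : ‖qd m g‖ ≤ 1 := jac_norm _ _

theorem qd_one (m : ℕ) : qd m 1 = 1 := by
  unfold qd
  rw [Pool.Agent.Y692.QS.nr_one, jacobiSym.one_left]
  simp

theorem qd_mul (m : ℕ) (x y : Ei) : qd m (x * y) = qd m x * qd m y := by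
  unfold qd
  rw [Pool.Agent.Y692.QS.nr_mul, jacobiSym.mul_left]
  push_cast
  rfl

theorem nr_mod {m : ℕ} {x y : Ei} (h : (m : Ei) ∣ x - y) :
    (m : ℤ) ∣ Pool.Agent.Y692.QS.nr x - Pool.Agent.Y692.QS.nr y := by
  obtain ⟨k, hk⟩ := h
  have hx : x = y + (m : Ei) * k := by rw [← hk]; ring
  have h1 : x.re = y.re + m * k.re := by
    rw [hx]
    simp
  have h2 : x.im = y.im + m * k.im := by
    rw [hx]
    simp
  unfold Pool.Agent.Y692.QS.nr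
  rw [h1, h2]
  exact ⟨2 * y.re * k.re + m * k.re ^ 2 - y.re * k.im - k.re * y.im - m * k.re * k.im +
    2 * y.im * k.im + m * k.im ^ 2, by ring⟩

theorem qd_per {m : ℕ} {x y : Ei} (h : (m : Ei) ∣ x - y) : qd m x = qd m y := by
  unfold qd
  rw [jacobiSym.mod_left' (Int.ModEq.symm ((Int.modEq_iff_dvd).2 (nr_mod h)))]

theorem qd_sq {m : ℕ} {c : Ei} (h : IsCoprime c (m : Ei)) : qd m (c * c) = 1 := by
  obtain ⟨u, v, huv⟩ := h
  have h1 : (m : Ei) ∣ u * c - 1 := ⟨-v, by linear_combination huv⟩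
  have h2 := nr_mod h1
  rw [Pool.Agent.Y692.QS.nr_mul, Pool.Agent.Y692.QS.nr_one] at h2
  have h3 : IsCoprime (Pool.Agent.Y692.QS.nr c) (m : ℤ) := by
    obtain ⟨k, hk⟩ := h2
    exact ⟨Pool.Agent.Y692.QS.nr u, -k, by linear_combination hk⟩
  have h4 : (Pool.Agent.Y692.QS.nr c).gcd m = 1 := Int.isCoprime_iff_gcd_eq_one.1 h3
  have h5 := jacobiSym.sq_one h4
  rw [qd_mul]
  unfold qd
  rw [← Int.cast_mul, ← pow_two, h5]
  simp

/-- the square of a nontrivial cube root of unity -/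
theorem sq_ne {z : ℂ} (h3 : z ^ 3 = 1) (h1 : z ≠ 1) : z * z ≠ 1 := by
  intro h
  apply h1
  calc z = z * (z * z) := by rw [h, mul_one]
    _ = z ^ 3 := by ring
    _ = 1 := h3

theorem ez_cube (x : ZMod 3) : ez x ^ 3 = 1 := by
  have h : ∀ y : ZMod 3, y + y + y = 0 := by decide
  have e : ez x ^ 3 = ez (x + x + x) := by
    rw [ez_add, ez_add]
    ring
  rw [e, h, ez_zero]

/-- the correlation of two mixed characters -/
theorem off {X : ℕ → Ei → ℂ} {q q' : ℕ} (hq : 0 < q) (hq' : 0 < q')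
    (hn : ∀ m, ∀ g, ‖X m g‖ ≤ 1) (hm : ∀ x y, X q (x * y) = X q x * X q y)
    (hm' : ∀ x y, X q' (x * y) = X q' x * X q' y)
    (hp : ∀ x y, (q : Ei) ∣ x - y → X q x = X q y) (hp' : ∀ x y, (q' : Ei) ∣ x - y → X q' x = X q' y)
    {c : Ei} (hc : IsCoprime c ((q * q' : ℕ) : Ei)) {z : ℂ} (hz3 : z ^ 3 = 1) (hz : z ≠ 1)
    (h1 : X q c = z) (h2 : X q' c = 1) (V : ℕ) :
    ‖∑ g ∈ ZB V, (X q g * qd q g) * conj (X q' g * qd q' g)‖ ≤
      3 * ((q : ℝ) * q') * (3 * Real.sqrt V + 1) := by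
  have hcq : IsCoprime c (q : Ei) := by
    push_cast at hc
    exact IsCoprime.of_mul_right_left hc
  have hcq' : IsCoprime c (q' : Ei) := by
    push_cast at hc
    exact IsCoprime.of_mul_right_right hc
  have key := csumN (n := q * q') (Nat.mul_pos hq hq')
    (f := fun g => (X q g * qd q g) * conj (X q' g * qd q' g)) (fun x y hxy => ?_)
    (fun g => ?_) (c := c * c) (IsCoprime.mul_left hc hc)
    (z := z * z) (sq_ne hz3 hz) (fun x => ?_) V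
  · refine key.trans (le_of_eq ?_)
    push_cast
    rfl
  · push_cast at hxy
    have x1 : (q : Ei) ∣ x - y := (dvd_mul_right _ _).trans hxy
    have x2 : (q' : Ei) ∣ x - y := (dvd_mul_left _ _).trans hxy
    rw [hp _ _ x1, hp' _ _ x2, qd_per x1, qd_per x2]
  · refine pair_norm ?_ ?_
    · rw [norm_mul]
      exact mul_le_one₀ (hn _ _) (norm_nonneg _) (qd_norm _ _)
    · rw [norm_mul]
      exact mul_le_one₀ (hn _ _) (norm_nonneg _) (qd_norm _ _)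
  · rw [hm (c * c) x, hm' (c * c) x, qd_mul q (c * c) x, qd_mul q' (c * c) x, hm c c, hm' c c, h1, h2,
      qd_sq hcq, qd_sq hcq', one_mul, one_mul, one_mul, one_mul]
    ring

/-- bilinear sums of characters of the Eisenstein integers -/
theorem gen_ei (h : LamP) {P T : Finset ℕ} {L M : ℕ} (hM : 1 ≤ M) (hML : M ≤ L)
    (hP : ∀ p ∈ P, p.Prime ∧ p % 3 = 1 ∧ p ≤ L) (hT : ∀ q ∈ T, q.Prime ∧ q ≤ M) (X : ℕ → Ei → ℂ)
    (h1 : ∀ q ∈ T, X q 1 = 1) (hm : ∀ q ∈ T, ∀ x y, X q (x * y) = X q x * X q y)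
    (hn : ∀ q ∈ T, ∀ g, ‖X q g‖ ≤ 1)
    (hoff : ∀ q ∈ T, ∀ q' ∈ T, q ≠ q' → ∀ V : ℕ, ‖∑ g ∈ ZB V, X q g * conj (X q' g)‖ ≤
      3 * ((q : ℝ) * q') * (3 * Real.sqrt V + 1))
    (c d : ℕ → ℂ) (hc : ∀ q, ‖c q‖ ≤ 1) (hd : ∀ p, ‖d p‖ ≤ 1) :
    ‖∑ q ∈ T, ∑ p ∈ P, c q * d p * X q (pp p)‖ ^ 12 ≤
      28 * 6 ^ 6 * ((M : ℝ) ^ 11 * (L : ℝ) ^ 12) := by
  have hL : 1 ≤ L := hM.trans hML
  have hA' : (1 : ℝ) ≤ L := by exact_mod_cast hL
  have hB' : (1 : ℝ) ≤ M := by exact_mod_cast hM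
  have hBA' : (M : ℝ) ≤ L := by exact_mod_cast hML
  have hcQ : (T.card : ℝ) ≤ M := card_le_of hT
  have hcP : (P.card : ℝ) ≤ L := card_le_of fun q hq => ⟨(hP q hq).1, (hP q hq).2.2⟩
  have hcD : ((ZB (L ^ 6)).card : ℝ) ≤ 16 * (L : ℝ) ^ 6 := by
    have := card_ZB_le (V := L ^ 6) (Nat.one_le_pow _ _ hL)
    push_cast at this
    exact this
  have hsq : Real.sqrt ((L ^ 6 : ℕ) : ℝ) = (L : ℝ) ^ 3 := by
    push_cast
    rw [show (L : ℝ) ^ 6 = ((L : ℝ) ^ 3) ^ 2 by ring, Real.sqrt_sq (by positivity)]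
  have hA3 : (1 : ℝ) ≤ (L : ℝ) ^ 3 := one_le_pow₀ hA'
  have hmain := holder (R := Ei) T P (ZB (L ^ 6)) pp X h1 hm
    (fun s hs => by
      rw [mem_ZB, Pool.Agent.Y261.CX.nrm_prod']
      refine (Finset.prod_le_prod' (g := fun _ => L) fun i _ => ?_).trans ?_
      · rw [nrm_pp h (hP _ (hs i)).1 (hP _ (hs i)).2.1]
        exact (hP _ (hs i)).2.2
      · simp)
    (fun x hx s hs hdv => by
      obtain ⟨hx1, hx2, hx3⟩ := hP x hx
      obtain ⟨i, -, hi⟩ := (Prime.dvd_finsetProd_iff (h.ex x hx1 hx2).1.prime _).1 hdv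
      refine ⟨i, ?_⟩
      have h1 := eq_of_dvd (h.ex x hx1 hx2).1 (h.ex _ (hP _ (hs i)).1 (hP _ (hs i)).2.1).1 hi
      rw [← nrm_pp h hx1 hx2, h1, nrm_pp h (hP _ (hs i)).1 (hP _ (hs i)).2.1])
    c d hc hd (28 * ((M : ℝ) * (L : ℝ) ^ 6))
    (fun eps heps => by
      have h1 := second T (ZB (L ^ 6)) X hn
        (12 * ((M : ℝ) ^ 2 * (L : ℝ) ^ 3)) (by positivity)
        (fun q hq q' hq' hne => by
          refine (hoff q hq q' hq' hne (L ^ 6)).trans ?_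
          rw [hsq]
          have hqB : (q : ℝ) ≤ M := by exact_mod_cast (hT q hq).2
          have hqB' : (q' : ℝ) ≤ M := by exact_mod_cast (hT q' hq').2
          calc 3 * ((q : ℝ) * q') * (3 * (L : ℝ) ^ 3 + 1)
              ≤ 3 * ((M : ℝ) * M) * (3 * (L : ℝ) ^ 3 + (L : ℝ) ^ 3) := by gcongr
            _ = 12 * ((M : ℝ) ^ 2 * (L : ℝ) ^ 3) := by ring)
        eps heps
      refine h1.trans ?_
      calc (T.card : ℝ) * ((ZB (L ^ 6)).card : ℝ) +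
            (T.card : ℝ) ^ 2 * (12 * ((M : ℝ) ^ 2 * (L : ℝ) ^ 3))
          ≤ M * (16 * (L : ℝ) ^ 6) + (M : ℝ) ^ 2 * (12 * ((M : ℝ) ^ 2 * (L : ℝ) ^ 3)) := by
            gcongr
        _ = 16 * (M * (L : ℝ) ^ 6) + 12 * (M * (M : ℝ) ^ 3 * (L : ℝ) ^ 3) := by ring
        _ ≤ 16 * (M * (L : ℝ) ^ 6) + 12 * (M * (L : ℝ) ^ 3 * (L : ℝ) ^ 3) := by gcongr
        _ = 28 * ((M : ℝ) * (L : ℝ) ^ 6) := by ring)
  refine hmain.trans ?_
  calc (T.card : ℝ) ^ 10 * ((P.card : ℝ) ^ 6 * (6 ^ 6 * (28 * ((M : ℝ) * (L : ℝ) ^ 6))))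
      ≤ (M : ℝ) ^ 10 * ((L : ℝ) ^ 6 * (6 ^ 6 * (28 * ((M : ℝ) * (L : ℝ) ^ 6)))) := by gcongr
    _ = 28 * 6 ^ 6 * ((M : ℝ) ^ 11 * (L : ℝ) ^ 12) := by ring

/-- the quadratic symbol of two primes -/
theorem sg_jac {p q : ℕ} (hp : p.Prime) (hq : q.Prime) (hne : p ≠ q) :
    sg (Pool.Agent.Y703.CQ.nr q p) = ((jacobiSym (p : ℤ) q : ℤ) : ℂ) := by
  have := Fact.mk hq
  have h0 : ((p : ℤ) : ZMod q) ≠ 0 := by
    rw [Ne, ZMod.intCast_zmod_eq_zero_iff_dvd]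
    intro h
    exact hne ((Nat.prime_dvd_prime_iff_eq hq hp).1 (by exact_mod_cast h)).symm
  rw [← jacobiSym.legendreSym.to_jacobiSym]
  unfold sg Pool.Agent.Y703.CQ.nr
  by_cases h : IsSquare ((p : ℕ) : ZMod q)
  · rw [if_pos h, if_pos rfl, (legendreSym.eq_one_iff q h0).2 (by push_cast; exact h)]
    simp
  · rw [if_neg h, if_neg one_ne_zero, (legendreSym.eq_neg_one_iff q).2 (by push_cast; exact h)]
    simp

theorem Xi_cube {α β : ZMod 3} {q : ℕ} (hn : Pool.Agent.Y692.QS.nr (pp q) = q)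
    (hq : Pq (pp q)) {c : Ei} (hc : IsCoprime c (q : Ei)) : Xi α β q c ^ 3 = 1 := by
  have h1 := Pool.Agent.Y261.CX.pp_mul hn
  have hc1 : ¬ pp q ∣ c := by
    intro hd
    have h2 : IsCoprime c (pp q) := hc.of_isCoprime_of_dvd_right ⟨_, h1.symm⟩
    exact hq.prime.not_isUnit (h2.isUnit_of_dvd' hd dvd_rfl)
  have hc2 : ¬ star (pp q) ∣ c := by
    intro hd
    have h2 : IsCoprime c (star (pp q)) :=
      hc.of_isCoprime_of_dvd_right ⟨_, (mul_comm _ _).trans h1 |>.symm⟩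
    exact (pq_star hq).prime.not_isUnit (h2.isUnit_of_dvd' hd dvd_rfl)
  unfold Xi
  rw [chi_of hc1, chi_of hc2, mul_pow, ← pow_mul, ← pow_mul, mul_comm α.val, mul_comm β.val, pow_mul,
    pow_mul, ez_cube, ez_cube, one_pow, one_pow, one_mul]

/-- mixed sums, two primes `≡ 1` modulo `3` -/
theorem mix_abs (h : LamP) {α β : ZMod 3} (hab : α ≠ 0 ∨ β ≠ 0) {P T : Finset ℕ} {L M : ℕ}
    (hM : 1 ≤ M) (hML : M ≤ L) (hP : ∀ p ∈ P, p.Prime ∧ p % 3 = 1 ∧ p ≤ L)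
    (hT : ∀ q ∈ T, q.Prime ∧ q % 3 = 1 ∧ q ≤ M) (c d : ℕ → ℂ) (hc : ∀ p, ‖c p‖ ≤ 1)
    (hd : ∀ q, ‖d q‖ ≤ 1) :
    ‖∑ q ∈ T, ∑ p ∈ P, c q * d p * (Xi α β q (pp p) * qd q (pp p))‖ ^ 12 ≤
      28 * 6 ^ 6 * ((M : ℝ) ^ 11 * (L : ℝ) ^ 12) := by
  have hTq : ∀ q ∈ T, Pq (pp q) ∧ Pool.Agent.Y692.QS.nr (pp q) = q := fun q hq =>
    h.ex q (hT q hq).1 (hT q hq).2.1
  refine gen_ei h hM hML hP (fun q hq => ⟨(hT q hq).1, (hT q hq).2.2⟩)
    (fun q g => Xi α β q g * qd q g) (fun q hq => ?_) (fun q hq x y => ?_) (fun q hq g => ?_)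
    (fun q hq q' hq' hne V => ?_) c d hc hd
  · rw [Xi_one (hTq q hq).1, qd_one, one_mul]
  · rw [Xi_mul (hTq q hq).1, qd_mul]
    ring
  · rw [norm_mul]
    exact mul_le_one₀ (Xi_norm _ _ _ _) (norm_nonneg _) (qd_norm _ _)
  · obtain ⟨e, z, h1, h2, h3, h4⟩ := mult hab (hT q hq).1 (hTq q hq).1 (hTq q hq).2 (hT q' hq').1
      (hTq q' hq').1 (hTq q' hq').2 hne
    have hcq : IsCoprime e (q : Ei) := by
      have h1' := h1
      push_cast at h1'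
      exact IsCoprime.of_mul_right_left h1'
    refine off (X := Xi α β) (hT q hq).1.pos (hT q' hq').1.pos (fun m g => Xi_norm _ _ _ _)
      (Xi_mul (hTq q hq).1) (Xi_mul (hTq q' hq').1)
      (fun x y hxy => Xi_per (hTq q hq).1 (hTq q hq).2 hxy)
      (fun x y hxy => Xi_per (hTq q' hq').1 (hTq q' hq').2 hxy) h1 ?_ h2 h3 h4 V
    rw [← h3]
    exact Xi_cube (hTq q hq).2 (hTq q hq).1 hcq

theorem qd_pp (h : LamP) {p q : ℕ} (hp : p.Prime) (hp3 : p % 3 = 1) (hq : q.Prime) (hne : p ≠ q) :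
    qd q (pp p) = sg (Pool.Agent.Y703.CQ.nr q p) := by
  unfold qd
  rw [(h.ex p hp hp3).2, sg_jac hp hq hne]

/-- mixed sums, two primes `≡ 1` modulo `3` -/
theorem mix1 (h : LamP) (P Q : Finset ℕ) (A B z : ℕ) (c d : ℕ → ℂ) (a b : ZMod 3)
    (hP : ∀ p ∈ P, p.Prime ∧ p % 4 = 1 ∧ p % 3 = 1 ∧ p ≤ A)
    (hQ : ∀ q ∈ Q, q.Prime ∧ q % 4 = 1 ∧ q % 3 = 1 ∧ q ≤ B)
    (hdis : Disjoint P Q) (hab : a ≠ 0 ∨ b ≠ 0) (hz : 1 ≤ z) (hzA : z ≤ A) (hzB : z ≤ B)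
    (hc : ∀ p, ‖c p‖ ≤ 1) (hd : ∀ q, ‖d q‖ ≤ 1) :
    ‖∑ p ∈ P, ∑ q ∈ Q, c p * d q * (sg (Pool.Agent.Y703.CQ.nr p q) *
      ez (a * lam p q + b * lam q p))‖ ^ 12 * z ≤ 28 * 6 ^ 6 * ((A : ℝ) * B) ^ 12 := by
  have hne : ∀ p ∈ P, ∀ q ∈ Q, p ≠ q := fun p hp q hq he =>
    (Finset.disjoint_left.1 hdis) hp (he ▸ hq)
  have hsym : ∀ p ∈ P, ∀ q ∈ Q, Pool.Agent.Y703.CQ.nr p q = Pool.Agent.Y703.CQ.nr q p := by
    intro p hp q hq
    refine Pool.Agent.R413.SQ.BOX.nr_symm (hP p hp).1 (hP p hp).2.1 (hQ q hq).1 ?_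
    rintro rfl
    have := (hQ 2 hq).2.1
    omega
  obtain ⟨z1, z2⟩ := zz3 a b hab
  rcases le_total B A with hBA | hAB
  · have e1 : ∑ p ∈ P, ∑ q ∈ Q, c p * d q * (sg (Pool.Agent.Y703.CQ.nr p q) *
        ez (a * lam p q + b * lam q p)) =
        ∑ q ∈ Q, ∑ p ∈ P, d q * c p * (Xi (a + b) (a - b) q (pp p) * qd q (pp p)) := by
      rw [sum_comm]
      refine sum_congr rfl fun q hq => sum_congr rfl fun p hp => ?_
      obtain ⟨p1, -, p2, -⟩ := hP p hp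
      obtain ⟨q1, -, q2, -⟩ := hQ q hq
      rw [val_chi h p1 p2 q1 q2 (hne p hp q hq), qd_pp h p1 p2 q1 (hne p hp q hq), hsym p hp q hq]
      obtain ⟨r1, r2, r3, r4, r5⟩ := h.rec1 p q p1 p2 q1 q2 (hne p hp q hq)
      have e : a * lam p q + b * lam q p = (a + b) * cs (pp q) (pp p) +
          (a - b) * cs (star (pp q)) (pp p) := by
        rw [r1, r2, r4, r5]
        ring
      rw [e]
      ring
    rw [e1]
    have h1 := mix_abs h z1 (hz.trans hzB) hBA (fun p hp => ⟨(hP p hp).1, (hP p hp).2.2⟩)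
      (fun p hp => ⟨(hQ p hp).1, (hQ p hp).2.2⟩) d c hd hc
    have h2 : (z : ℝ) ≤ B := by exact_mod_cast hzB
    calc ‖∑ q ∈ Q, ∑ p ∈ P, d q * c p * (Xi (a + b) (a - b) q (pp p) * qd q (pp p))‖ ^ 12 * z ≤
        (28 * 6 ^ 6 * ((B : ℝ) ^ 11 * (A : ℝ) ^ 12)) * B := by
          apply mul_le_mul h1 h2 (by positivity) (by positivity)
      _ = 28 * 6 ^ 6 * ((A : ℝ) * B) ^ 12 := by ring
  · have e1 : ∑ p ∈ P, ∑ q ∈ Q, c p * d q * (sg (Pool.Agent.Y703.CQ.nr p q) *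
        ez (a * lam p q + b * lam q p)) =
        ∑ p ∈ P, ∑ q ∈ Q, c p * d q * (Xi (a + b) (b - a) p (pp q) * qd p (pp q)) := by
      refine sum_congr rfl fun p hp => sum_congr rfl fun q hq => ?_
      obtain ⟨p1, -, p2, -⟩ := hP p hp
      obtain ⟨q1, -, q2, -⟩ := hQ q hq
      rw [val_chi h q1 q2 p1 p2 (hne p hp q hq).symm, qd_pp h q1 q2 p1 (hne p hp q hq).symm]
      obtain ⟨r1, r2, r3, r4, r5⟩ := h.rec1 p q p1 p2 q1 q2 (hne p hp q hq)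
      have e : a * lam p q + b * lam q p = (a + b) * cs (pp p) (pp q) +
          (b - a) * cs (star (pp p)) (pp q) := by
        rw [r1, r2, r3]
        ring
      rw [e]
      ring
    rw [e1]
    have h1 := mix_abs h z2 (hz.trans hzA) hAB (fun p hp => ⟨(hQ p hp).1, (hQ p hp).2.2⟩)
      (fun p hp => ⟨(hP p hp).1, (hP p hp).2.2⟩) c d hc hd
    have h2 : (z : ℝ) ≤ A := by exact_mod_cast hzA
    calc ‖∑ p ∈ P, ∑ q ∈ Q, c p * d q * (Xi (a + b) (b - a) p (pp q) * qd p (pp q))‖ ^ 12 * z ≤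
        (28 * 6 ^ 6 * ((A : ℝ) ^ 11 * (B : ℝ) ^ 12)) * A := by
          apply mul_le_mul h1 h2 (by positivity) (by positivity)
      _ = 28 * 6 ^ 6 * ((A : ℝ) * B) ^ 12 := by ring

end Pool.Agent.H20PT.JL
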