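import Pool.Agent.H20PT.JL.Bil
import Pool.Agent.Y356.CQ.EQ

/-!
# Bilinear sums of products of quadratic and cubic symbols: a prime `≡ 1` and a prime `≡ 2`
-/

set_option autoImplicit false
set_option linter.unusedVariables false

open Finset

namespace Pool.Agent.H20PT.JL

open Pool.Agent.Y692.QS (Ei w)
open Pool.Agent.Y715.T.Rec (cs)
open Pool.Agent.Y715.T.RecG (Pq)
open Pool.Agent.Y699.E
open Pool.Agent.Y703.CX (pp lam LamP)
open Pool.Agent.Y703.CQ (sg)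
open Pool.Agent.Y779.CX (second holder xn xe xn_norm xe_norm pair_norm csumN nsum nrm_pp
  pp_dvd_iff pp_dvd_sub exists_nonres_nat exists_crt ez_val ez_val_ne nrm_nat nat_dvd_neg card_le_of)
open scoped ComplexConjugate

theorem xe_cube {a : ZMod 3} {q : ℕ} {c : Ei} (hc : ¬ -(q : Ei) ∣ c) : xe a q c ^ 3 = 1 := by
  unfold xe
  rw [chi_of hc, ← pow_mul, mul_comm a.val, pow_mul, ez_cube, one_pow]

/-- the long variable is the prime `≡ 1` -/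
theorem mix_one (h : LamP) (P Q : Finset ℕ) (A B : ℕ) (c d : ℕ → ℂ) (a : ZMod 3)
    (hP : ∀ p ∈ P, p.Prime ∧ p % 3 = 1 ∧ p ≤ A) (hQ : ∀ q ∈ Q, q.Prime ∧ q % 3 = 2 ∧ q ≤ B)
    (ha : a ≠ 0) (hA : 1 ≤ A) (hB : 1 ≤ B) (hBA : B ≤ A) (hc : ∀ p, ‖c p‖ ≤ 1)
    (hd : ∀ q, ‖d q‖ ≤ 1) (hne : P.Nonempty) :
    ‖∑ p ∈ P, ∑ q ∈ Q, c p * d q * (sg (Pool.Agent.Y703.CQ.nr q p) * ez (a * lam p q))‖ ^ 12 ≤
      28 * 6 ^ 6 * ((B : ℝ) ^ 11 * (A : ℝ) ^ 12) := by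
  obtain ⟨p₁, hp₁⟩ := hne
  have hPq : ∀ q ∈ Q, Pq (-(q : Ei)) := fun q hq =>
    (h.rec2 p₁ q (hP p₁ hp₁).1 (hP p₁ hp₁).2.1 (hQ q hq).1 (hQ q hq).2.1).1
  have e1 : ∑ p ∈ P, ∑ q ∈ Q, c p * d q * (sg (Pool.Agent.Y703.CQ.nr q p) * ez (a * lam p q)) =
      ∑ q ∈ Q, ∑ p ∈ P, d q * c p * (xe a q (pp p) * qd q (pp p)) := by
    rw [sum_comm]
    refine sum_congr rfl fun q hq => sum_congr rfl fun p hp => ?_
    obtain ⟨hp1, hp2, hp3⟩ := hP p hp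
    obtain ⟨hq1, hq2, hq3⟩ := hQ q hq
    have hpq : p ≠ q := by
      rintro rfl
      omega
    have hnd : ¬ -(q : Ei) ∣ pp p := by
      intro hd
      have h1 : (q : Ei) ∣ pp p := (neg_dvd).1 hd
      obtain ⟨k, hk⟩ := h1
      have h2 : nrm (pp p) = nrm (q : Ei) * nrm k := by rw [hk, nrm_mul]
      rw [nrm_nat, nrm_pp h hp1 hp2, mul_assoc] at h2
      have h3 : q ∣ p := ⟨_, h2⟩
      have h4 := (Nat.prime_dvd_prime_iff_eq hq1 hp1).1 h3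
      omega
    rw [Pool.Agent.Y779.CX.ez_val, (h.rec2 p q hp1 hp2 hq1 hq2).2, ← chi_of hnd, qd_pp h hp1 hp2 hq1 hpq]
    unfold xe
    ring
  rw [e1]
  refine gen_ei h hB hBA hP (fun q hq => ⟨(hQ q hq).1, (hQ q hq).2.2⟩)
    (fun q g => xe a q g * qd q g) (fun q hq => ?_) (fun q hq x y => ?_) (fun q hq g => ?_)
    (fun q hq q' hq' hne V => ?_) d c hd hc
  · unfold xe
    rw [chi_one (hPq q hq), one_pow, qd_one, one_mul]
  · unfold xe
    rw [chi_mul (hPq q hq), mul_pow, qd_mul]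
    ring
  · rw [norm_mul]
    exact mul_le_one₀ (xe_norm _ _ _) (norm_nonneg _) (qd_norm _ _)
  · have hne' : -(q : Ei) ≠ -(q' : Ei) := by
      intro h
      apply hne
      exact_mod_cast neg_injective h
    obtain ⟨e, hc0, hc1, hc2⟩ := exists_crt (hPq q hq) (hPq q' hq') hne'
    have e1 : chi (-(q : Ei)) e = ez (cs (-(q : Ei)) e) := chi_of hc0
    have e2 : chi (-(q' : Ei)) e = 1 := by rw [chi_per (hPq q' hq') hc2, chi_one (hPq q' hq')]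
    refine off (X := xe a) (c := e) (z := ez (cs (-(q : Ei)) e) ^ a.val) (hQ q hq).1.pos
      (hQ q' hq').1.pos (fun m g => xe_norm _ _ _)
      (fun x y => ?_) (fun x y => ?_) (fun x y hxy => ?_) (fun x y hxy => ?_) ?_ ?_
      (ez_val_ne ha hc1) ?_ ?_ V
    · unfold xe
      rw [chi_mul (hPq q hq), mul_pow]
    · unfold xe
      rw [chi_mul (hPq q' hq'), mul_pow]
    · unfold xe
      rw [chi_per (hPq q hq) (nat_dvd_neg q hxy)]
    · unfold xe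
      rw [chi_per (hPq q' hq') (nat_dvd_neg q' hxy)]
    · rw [Nat.cast_mul]
      refine IsCoprime.mul_right ?_ ?_
      · have := ((hPq q hq).prime.irreducible.coprime_iff_not_dvd).2 hc0
        exact (IsCoprime.neg_left_iff _ _).1 this |>.symm
      · obtain ⟨k, hk⟩ := hc2
        exact ⟨1, k, by linear_combination hk⟩
    · rw [← pow_mul, mul_comm a.val, pow_mul, ez_cube, one_pow]
    · unfold xe
      rw [e1]
    · unfold xe
      rw [e2, one_pow]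

/-- the sums of a product of two mixed characters on the natural numbers -/
theorem offn (h : LamP) {a : ZMod 3} (ha : a ≠ 0) {p p' : ℕ} (hp : p.Prime) (h3 : p % 3 = 1)
    (hp' : p'.Prime) (h3' : p' % 3 = 1) (hne : p ≠ p') (V : ℕ) :
    ‖∑ n ∈ range V, (xn a p n * ((jacobiSym (n : ℤ) p : ℤ) : ℂ)) *
      conj (xn a p' n * ((jacobiSym (n : ℤ) p' : ℤ) : ℂ))‖ ≤ p * p' := by
  obtain ⟨n₀, hn₀, hl⟩ := exists_nonres_nat h hp h3
  have hcop : Nat.Coprime p p' := (Nat.coprime_primes hp hp').2 hne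
  obtain ⟨c, hc1, hc2⟩ := Nat.chineseRemainder hcop n₀ 1
  have hP := (h.ex p hp h3).1
  have hP' := (h.ex p' hp' h3').1
  have e1 : chi (pp p) (c : Ei) = ez (lam p n₀) := by
    rw [chi_per hP (pp_dvd_sub h hp h3 hc1), chi_of (fun hd => hn₀ ((pp_dvd_iff h hp h3 _).1 hd))]
    rfl
  have e2 : chi (pp p') (c : Ei) = 1 := by
    rw [chi_per hP' (pp_dvd_sub h hp' h3' hc2), Nat.cast_one, chi_one hP']
  have hN : 0 < p * p' := Nat.mul_pos hp.pos hp'.pos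
  have hcp : Nat.Coprime c p := by
    rw [Nat.coprime_comm, Nat.Prime.coprime_iff_not_dvd hp]
    intro hd
    exact hn₀ ((hc1.dvd_iff dvd_rfl).1 hd)
  have hcp' : Nat.Coprime c p' := by
    rw [Nat.coprime_comm, Nat.Prime.coprime_iff_not_dvd hp']
    intro hd
    have := (hc2.dvd_iff dvd_rfl).1 hd
    exact hp'.one_lt.ne' (Nat.dvd_one.1 this)
  have jper : ∀ {m x y : ℕ}, x ≡ y [MOD m] → jacobiSym (x : ℤ) m = jacobiSym (y : ℤ) m := by
    intro m x y hxy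
    exact jacobiSym.mod_left' (Int.natCast_modEq_iff.2 hxy)
  have jsq : ∀ {m : ℕ}, Nat.Coprime c m → ((jacobiSym ((c : ℤ)) m : ℤ) : ℂ) *
      ((jacobiSym ((c : ℤ)) m : ℤ) : ℂ) = 1 := by
    intro m hm
    have h4 : (c : ℤ).gcd m = 1 := by
      rw [Int.gcd_natCast_natCast]
      exact hm
    have h5 := jacobiSym.sq_one h4
    rw [← Int.cast_mul, ← pow_two, h5]
    simp
  have key := nsum (N := p * p') hN (f := fun n => (xn a p n * ((jacobiSym (n : ℤ) p : ℤ) : ℂ)) *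
      conj (xn a p' n * ((jacobiSym (n : ℤ) p' : ℤ) : ℂ))) (fun x y hxy => ?_)
    (fun n => pair_norm ?_ ?_) (c := c * c) ?_
    (z := ez (lam p n₀) ^ a.val * ez (lam p n₀) ^ a.val)
    (sq_ne (by rw [← pow_mul, mul_comm a.val, pow_mul, ez_cube, one_pow]) (ez_val_ne ha hl))
    (fun x => ?_) V
  · refine key.trans (le_of_eq ?_)
    push_cast
    rfl
  · have x1 : x ≡ y [MOD p] := hxy.of_mul_right _
    have x2 : x ≡ y [MOD p'] := hxy.of_mul_left _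
    simp only [xn]
    rw [chi_per hP (pp_dvd_sub h hp h3 x1), chi_per hP' (pp_dvd_sub h hp' h3' x2), jper x1, jper x2]
  · rw [norm_mul]
    exact mul_le_one₀ (xn_norm _ _ _) (norm_nonneg _) (jac_norm _ _)
  · rw [norm_mul]
    exact mul_le_one₀ (xn_norm _ _ _) (norm_nonneg _) (jac_norm _ _)
  · refine Nat.Coprime.mul_left ?_ ?_ <;> exact Nat.Coprime.mul_right hcp hcp'
  · simp only [xn]
    rw [Nat.cast_mul, Nat.cast_mul, chi_mul hP, chi_mul hP', chi_mul hP, chi_mul hP', e1, e2, one_mul,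
      one_mul, mul_pow, mul_pow]
    have j1 : jacobiSym (((c * c * x : ℕ) : ℤ)) p = jacobiSym (c : ℤ) p * jacobiSym (c : ℤ) p *
        jacobiSym (x : ℤ) p := by
      push_cast
      rw [jacobiSym.mul_left, jacobiSym.mul_left]
    have j2 : jacobiSym (((c * c * x : ℕ) : ℤ)) p' = jacobiSym (c : ℤ) p' * jacobiSym (c : ℤ) p' *
        jacobiSym (x : ℤ) p' := by
      push_cast
      rw [jacobiSym.mul_left, jacobiSym.mul_left]
    rw [j1, j2]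
    have k1 := jsq hcp
    have k2 := jsq hcp'
    have k3 : (((jacobiSym (c : ℤ) p * jacobiSym (c : ℤ) p * jacobiSym (x : ℤ) p : ℤ)) : ℂ) =
        ((jacobiSym (x : ℤ) p : ℤ) : ℂ) := by
      push_cast
      rw [k1, one_mul]
    have k4 : (((jacobiSym (c : ℤ) p' * jacobiSym (c : ℤ) p' * jacobiSym (x : ℤ) p' : ℤ)) : ℂ) =
        ((jacobiSym (x : ℤ) p' : ℤ) : ℂ) := by
      push_cast
      rw [k2, one_mul]
    rw [k3, k4]
    ring

/-- the long variable is the prime `≡ 2` -/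
theorem mix_two (h : LamP) (P Q : Finset ℕ) (A B : ℕ) (c d : ℕ → ℂ) (a : ZMod 3)
    (hP : ∀ p ∈ P, p.Prime ∧ p % 3 = 1 ∧ p ≤ A) (hQ : ∀ q ∈ Q, q.Prime ∧ q % 3 = 2 ∧ q ≤ B)
    (ha : a ≠ 0) (hA : 1 ≤ A) (hB : 1 ≤ B) (hAB : A ≤ B) (hc : ∀ p, ‖c p‖ ≤ 1)
    (hd : ∀ q, ‖d q‖ ≤ 1) :
    ‖∑ p ∈ P, ∑ q ∈ Q, c p * d q * (sg (Pool.Agent.Y703.CQ.nr p q) * ez (a * lam p q))‖ ^ 12 ≤
      3 * 6 ^ 6 * ((A : ℝ) ^ 11 * (B : ℝ) ^ 12) := by
  have hA' : (1 : ℝ) ≤ A := by exact_mod_cast hA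
  have hB' : (1 : ℝ) ≤ B := by exact_mod_cast hB
  have hAB' : (A : ℝ) ≤ B := by exact_mod_cast hAB
  have hPq : ∀ p ∈ P, Pq (pp p) := fun p hp => (h.ex p (hP p hp).1 (hP p hp).2.1).1
  have e1 : ∑ p ∈ P, ∑ q ∈ Q, c p * d q * (sg (Pool.Agent.Y703.CQ.nr p q) * ez (a * lam p q)) =
      ∑ p ∈ P, ∑ q ∈ Q, c p * d q * (fun m n => xn a m n * ((jacobiSym (n : ℤ) m : ℤ) : ℂ)) p (id q) := by
    refine sum_congr rfl fun p hp => sum_congr rfl fun q hq => ?_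
    obtain ⟨hp1, hp2, hp3⟩ := hP p hp
    obtain ⟨hq1, hq2, hq3⟩ := hQ q hq
    have hpq : q ≠ p := by
      rintro rfl
      omega
    have hnd : ¬ pp p ∣ (q : Ei) := by
      rw [pp_dvd_iff h hp1 hp2, Nat.prime_dvd_prime_iff_eq hp1 hq1]
      omega
    rw [Pool.Agent.Y779.CX.ez_val, sg_jac hq1 hp1 hpq]
    unfold xn lam
    rw [id, ← chi_of hnd]
    ring
  rw [e1]
  have hcQ : (Q.card : ℝ) ≤ B := card_le_of fun q hq => ⟨(hQ q hq).1, (hQ q hq).2.2⟩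
  have hcP : (P.card : ℝ) ≤ A := card_le_of fun q hq => ⟨(hP q hq).1, (hP q hq).2.2⟩
  have hcD : ((range (B ^ 6 + 1)).card : ℝ) ≤ 2 * (B : ℝ) ^ 6 := by
    rw [card_range]
    push_cast
    have : (1 : ℝ) ≤ (B : ℝ) ^ 6 := one_le_pow₀ hB'
    linarith
  have hmain := holder (R := ℕ) P Q (range (B ^ 6 + 1)) id
    (fun m n => xn a m n * ((jacobiSym (n : ℤ) m : ℤ) : ℂ))
    (fun p hp => by
      unfold xn
      rw [Nat.cast_one, chi_one (hPq p hp), one_pow]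
      simp [jacobiSym.one_left])
    (fun p hp x y => by
      unfold xn
      rw [Nat.cast_mul, chi_mul (hPq p hp), mul_pow, Nat.cast_mul, jacobiSym.mul_left]
      push_cast
      ring)
    (fun s hs => by
      rw [mem_range, Nat.lt_succ_iff]
      refine (Finset.prod_le_prod' (g := fun _ => B) fun i _ => (hQ _ (hs i)).2.2).trans ?_
      simp)
    (fun x hx s hs hdv => by
      obtain ⟨i, -, hi⟩ := (Prime.dvd_finsetProd_iff (hQ x hx).1.prime _).1 hdv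
      exact ⟨i, (Nat.prime_dvd_prime_iff_eq (hQ x hx).1 (hQ _ (hs i)).1).1 hi⟩)
    c d hc hd (3 * ((A : ℝ) * (B : ℝ) ^ 6))
    (fun eps heps => by
      have h1 := second P (range (B ^ 6 + 1)) (fun m n => xn a m n * ((jacobiSym (n : ℤ) m : ℤ) : ℂ))
        (fun q _ g => by
          rw [norm_mul]
          exact mul_le_one₀ (xn_norm a q g) (norm_nonneg _) (jac_norm _ _))
        ((A : ℝ) ^ 2) (by positivity)
        (fun p hp p' hp' hne => by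
          refine (offn h ha (hP p hp).1 (hP p hp).2.1 (hP p' hp').1 (hP p' hp').2.1 hne
            _).trans ?_
          have hqB : (p : ℝ) ≤ A := by exact_mod_cast (hP p hp).2.2
          have hqB' : (p' : ℝ) ≤ A := by exact_mod_cast (hP p' hp').2.2
          rw [pow_two]
          gcongr)
        eps heps
      refine h1.trans ?_
      calc (P.card : ℝ) * ((range (B ^ 6 + 1)).card : ℝ) + (P.card : ℝ) ^ 2 * (A : ℝ) ^ 2
          ≤ A * (2 * (B : ℝ) ^ 6) + (A : ℝ) ^ 2 * (A : ℝ) ^ 2 := by gcongr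
        _ = 2 * (A * (B : ℝ) ^ 6) + A * ((A : ℝ) ^ 3 * 1) := by ring
        _ ≤ 2 * (A * (B : ℝ) ^ 6) + A * ((B : ℝ) ^ 3 * (B : ℝ) ^ 3) := by
            gcongr
            exact one_le_pow₀ hB'
        _ = 3 * ((A : ℝ) * (B : ℝ) ^ 6) := by ring)
  refine hmain.trans ?_
  calc (P.card : ℝ) ^ 10 * ((Q.card : ℝ) ^ 6 * (6 ^ 6 * (3 * ((A : ℝ) * (B : ℝ) ^ 6))))
      ≤ (A : ℝ) ^ 10 * ((B : ℝ) ^ 6 * (6 ^ 6 * (3 * ((A : ℝ) * (B : ℝ) ^ 6)))) := by gcongr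
    _ = 3 * 6 ^ 6 * ((A : ℝ) ^ 11 * (B : ℝ) ^ 12) := by ring

/-- mixed sums, a prime `≡ 1` and a prime `≡ 2` modulo `3` -/
theorem mix2 (h : LamP) (P Q : Finset ℕ) (A B z : ℕ) (c d : ℕ → ℂ) (a : ZMod 3)
    (hP : ∀ p ∈ P, p.Prime ∧ p % 4 = 1 ∧ p % 3 = 1 ∧ p ≤ A)
    (hQ : ∀ q ∈ Q, q.Prime ∧ q % 4 = 1 ∧ q % 3 = 2 ∧ q ≤ B)
    (ha : a ≠ 0) (hz : 1 ≤ z) (hzA : z ≤ A) (hzB : z ≤ B)
    (hc : ∀ p, ‖c p‖ ≤ 1) (hd : ∀ q, ‖d q‖ ≤ 1) :
    ‖∑ p ∈ P, ∑ q ∈ Q, c p * d q * (sg (Pool.Agent.Y703.CQ.nr p q) * ez (a * lam p q))‖ ^ 12 * z ≤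
      28 * 6 ^ 6 * ((A : ℝ) * B) ^ 12 := by
  have hA : 1 ≤ A := hz.trans hzA
  have hB : 1 ≤ B := hz.trans hzB
  have hzA' : (z : ℝ) ≤ A := by exact_mod_cast hzA
  have hzB' : (z : ℝ) ≤ B := by exact_mod_cast hzB
  have hP' : ∀ p ∈ P, p.Prime ∧ p % 3 = 1 ∧ p ≤ A := fun p hp => ⟨(hP p hp).1, (hP p hp).2.2⟩
  have hQ' : ∀ p ∈ Q, p.Prime ∧ p % 3 = 2 ∧ p ≤ B := fun p hp => ⟨(hQ p hp).1, (hQ p hp).2.2⟩
  rcases P.eq_empty_or_nonempty with hPe | hPne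
  · rw [hPe, sum_empty, norm_zero]
    have : (0 : ℝ) ≤ 28 * 6 ^ 6 * ((A : ℝ) * B) ^ 12 := by positivity
    simpa using this
  rcases le_total B A with hBA | hAB
  · have h1 := mix_one h P Q A B c d a hP' hQ' ha hA hB hBA hc hd hPne
    have e : ∑ p ∈ P, ∑ q ∈ Q, c p * d q * (sg (Pool.Agent.Y703.CQ.nr p q) * ez (a * lam p q)) =
        ∑ p ∈ P, ∑ q ∈ Q, c p * d q * (sg (Pool.Agent.Y703.CQ.nr q p) * ez (a * lam p q)) := by
      refine sum_congr rfl fun p hp => sum_congr rfl fun q hq => ?_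
      rw [Pool.Agent.R413.SQ.BOX.nr_symm (hP p hp).1 (hP p hp).2.1 (hQ q hq).1 (by
        rintro rfl
        have := (hQ 2 hq).2.1
        omega)]
    rw [e]
    calc ‖∑ p ∈ P, ∑ q ∈ Q, c p * d q * (sg (Pool.Agent.Y703.CQ.nr q p) *
          ez (a * lam p q))‖ ^ 12 * (z : ℝ)
        ≤ 28 * 6 ^ 6 * ((B : ℝ) ^ 11 * (A : ℝ) ^ 12) * B := by gcongr
      _ = 28 * 6 ^ 6 * ((A : ℝ) * B) ^ 12 := by ring
  · have h1 := mix_two h P Q A B c d a hP' hQ' ha hA hB hAB hc hd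
    calc ‖∑ p ∈ P, ∑ q ∈ Q, c p * d q * (sg (Pool.Agent.Y703.CQ.nr p q) *
          ez (a * lam p q))‖ ^ 12 * (z : ℝ)
        ≤ 3 * 6 ^ 6 * ((A : ℝ) ^ 11 * (B : ℝ) ^ 12) * A := by gcongr
      _ = 3 * 6 ^ 6 * ((A : ℝ) * B) ^ 12 := by ring
      _ ≤ 28 * 6 ^ 6 * ((A : ℝ) * B) ^ 12 := by
          gcongr
          norm_num

/-- the residue of the prime prescribed by a flag -/
def R3 (s : Prop) (p : ℕ) : Prop := (s → p % 3 = 1) ∧ (¬ s → p % 3 = 2)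

/-- **mixed bilinear sums** -/
theorem t_MIX : ∃ C : ℝ, 1 ≤ C ∧ ∀ (P Q : Finset ℕ) (A B z : ℕ) (c d : ℕ → ℂ) (s t : Prop)
    (u : ZMod 2) (a b : ZMod 3),
    (∀ p ∈ P, p.Prime ∧ p % 4 = 1 ∧ R3 s p ∧ p ≤ A) → (∀ q ∈ Q, q.Prime ∧ q % 4 = 1 ∧ R3 t q ∧ q ≤ B) →
    Disjoint P Q → (u ≠ 0 ∨ a ≠ 0 ∨ b ≠ 0) → (¬ s → a = 0) → (¬ t → b = 0) →
    1 ≤ z → z ≤ A → z ≤ B → (∀ p, ‖c p‖ ≤ 1) → (∀ q, ‖d q‖ ≤ 1) →
    ‖∑ p ∈ P, ∑ q ∈ Q, c p * d q * (sg (u * Pool.Agent.Y703.CQ.nr p q) *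
      ez (a * lam p q + b * lam q p))‖ ^ 12 * z ≤ C * ((A : ℝ) * B) ^ 12 := by
  have hL : LamP := Pool.Agent.Y333.CX.t_LAM
  obtain ⟨C₁, hC₁, h1⟩ := Pool.Agent.Y261.CX.t_BIL1 hL
  obtain ⟨C₂, hC₂, h2⟩ := Pool.Agent.Y779.CX.t_BIL2 hL
  obtain ⟨C₃, hC₃, h3⟩ := Pool.Agent.R413.SQ.BIL.t_BIL
  refine ⟨max (max C₁ C₂) (max C₃ (28 * 6 ^ 6)), (hC₁.trans (le_max_left _ _)).trans
    (le_max_left _ _), ?_⟩
  intro P Q A B z c d s t u a b hP hQ hdis hne hs ht hz hzA hzB hc hd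
  have m1 : C₁ ≤ max (max C₁ C₂) (max C₃ (28 * 6 ^ 6)) := (le_max_left _ _).trans (le_max_left _ _)
  have m2 : C₂ ≤ max (max C₁ C₂) (max C₃ (28 * 6 ^ 6)) := (le_max_right _ _).trans (le_max_left _ _)
  have m3 : C₃ ≤ max (max C₁ C₂) (max C₃ (28 * 6 ^ 6)) := (le_max_left _ _).trans (le_max_right _ _)
  have m4 : (28 * 6 ^ 6 : ℝ) ≤ max (max C₁ C₂) (max C₃ (28 * 6 ^ 6)) :=
    (le_max_right _ _).trans (le_max_right _ _)
  have hAB : (0 : ℝ) ≤ ((A : ℝ) * B) ^ 12 := by positivity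
  have fin : ∀ {K x : ℝ}, x ≤ K * ((A : ℝ) * B) ^ 12 → K ≤ max (max C₁ C₂) (max C₃ (28 * 6 ^ 6)) →
      x ≤ max (max C₁ C₂) (max C₃ (28 * 6 ^ 6)) * ((A : ℝ) * B) ^ 12 := fun hx hK =>
    hx.trans (mul_le_mul_of_nonneg_right hK hAB)
  have n2 : ∀ {S : Finset ℕ} {N : ℕ} {v : Prop}, (∀ q ∈ S, q.Prime ∧ q % 4 = 1 ∧ R3 v q ∧ q ≤ N) →
      ∀ q ∈ S, q ≠ 2 := by
    intro S N v h q hq
    have := (h q hq).2.1
    omega
  by_cases hab : a = 0 ∧ b = 0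
  · -- purely quadratic
    obtain ⟨ha, hb⟩ := hab
    have hu : u = 1 := by
      have h : ∀ x : ZMod 2, x ≠ 0 → x = 1 := by decide
      refine h u ?_
      rcases hne with h | h | h
      · exact h
      · exact absurd ha h
      · exact absurd hb h
    have e : ∑ p ∈ P, ∑ q ∈ Q, c p * d q * (sg (u * Pool.Agent.Y703.CQ.nr p q) *
        ez (a * lam p q + b * lam q p)) =
        ∑ p ∈ P, ∑ q ∈ Q, c p * d q * sg (Pool.Agent.Y703.CQ.nr p q) := by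
      refine sum_congr rfl fun p hp => sum_congr rfl fun q hq => ?_
      rw [hu, ha, hb, one_mul, zero_mul, zero_mul, add_zero, ez_zero, mul_one]
    rw [e]
    exact fin (h3 P Q A B z c d (fun p hp => ⟨(hP p hp).1, (hP p hp).2.1, (hP p hp).2.2.2⟩)
      (fun p hp => ⟨(hQ p hp).1, n2 hQ p hp, (hQ p hp).2.2.2⟩) hdis hz hzA hzB hc hd) m3
  have hab' : a ≠ 0 ∨ b ≠ 0 := by
    by_contra h
    push Not at h
    exact hab h
  by_cases hu : u = 0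
  · -- purely cubic
    have e : ∑ p ∈ P, ∑ q ∈ Q, c p * d q * (sg (u * Pool.Agent.Y703.CQ.nr p q) *
        ez (a * lam p q + b * lam q p)) =
        ∑ p ∈ P, ∑ q ∈ Q, c p * d q * ez (a * lam p q + b * lam q p) := by
      refine sum_congr rfl fun p hp => sum_congr rfl fun q hq => ?_
      rw [hu, zero_mul, Pool.Agent.Y356.CQ.sg_zero, one_mul]
    rw [e]
    by_cases hs' : s
    · by_cases ht' : t
      · exact fin (h1 P Q A B z c d a b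
          (fun p hp => ⟨(hP p hp).1, (hP p hp).2.2.1.1 hs', (hP p hp).2.2.2⟩)
          (fun p hp => ⟨(hQ p hp).1, (hQ p hp).2.2.1.1 ht', (hQ p hp).2.2.2⟩) hdis hab' hz hzA hzB hc hd) m1
      · have hb0 := ht ht'
        have ha0 : a ≠ 0 := hab'.resolve_right fun h => h hb0
        have := h2 P Q A B z c d a
          (fun p hp => ⟨(hP p hp).1, (hP p hp).2.2.1.1 hs', (hP p hp).2.2.2⟩)
          (fun p hp => ⟨(hQ p hp).1, (hQ p hp).2.2.1.2 ht', (hQ p hp).2.2.2⟩) ha0 hz hzA hzB hc hd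
        simp only [hb0, zero_mul, add_zero]
        exact fin this m2
    · have ha0 := hs hs'
      have hb0 : b ≠ 0 := hab'.resolve_left fun h => h ha0
      have ht' : t := by
        by_contra h
        exact hb0 (ht h)
      have := h2 Q P B A z d c b
        (fun p hp => ⟨(hQ p hp).1, (hQ p hp).2.2.1.1 ht', (hQ p hp).2.2.2⟩)
        (fun p hp => ⟨(hP p hp).1, (hP p hp).2.2.1.2 hs', (hP p hp).2.2.2⟩) hb0 hz hzB hzA hd hc
      have e2 : ∑ p ∈ P, ∑ q ∈ Q, c p * d q * ez (a * lam p q + b * lam q p) =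
          ∑ q ∈ Q, ∑ p ∈ P, d q * c p * ez (b * lam q p) := by
        rw [sum_comm]
        refine sum_congr rfl fun q hq => sum_congr rfl fun p hp => ?_
        rw [ha0, zero_mul, zero_add, mul_comm (c p)]
      rw [e2]
      rw [mul_comm (B : ℝ)] at this
      exact fin this m2
  -- mixed
  have hu1 : u = 1 := by
    have h : ∀ x : ZMod 2, x ≠ 0 → x = 1 := by decide
    exact h u hu
  have e : ∑ p ∈ P, ∑ q ∈ Q, c p * d q * (sg (u * Pool.Agent.Y703.CQ.nr p q) *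
      ez (a * lam p q + b * lam q p)) =
      ∑ p ∈ P, ∑ q ∈ Q, c p * d q * (sg (Pool.Agent.Y703.CQ.nr p q) *
        ez (a * lam p q + b * lam q p)) := by
    rw [hu1]
    simp only [one_mul]
  rw [e]
  by_cases hs' : s
  · by_cases ht' : t
    · exact fin (mix1 hL P Q A B z c d a b
        (fun p hp => ⟨(hP p hp).1, (hP p hp).2.1, (hP p hp).2.2.1.1 hs', (hP p hp).2.2.2⟩)
        (fun p hp => ⟨(hQ p hp).1, (hQ p hp).2.1, (hQ p hp).2.2.1.1 ht', (hQ p hp).2.2.2⟩)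
        hdis hab' hz hzA hzB hc hd) m4
    · have hb0 := ht ht'
      have ha0 : a ≠ 0 := hab'.resolve_right fun h => h hb0
      have := mix2 hL P Q A B z c d a
        (fun p hp => ⟨(hP p hp).1, (hP p hp).2.1, (hP p hp).2.2.1.1 hs', (hP p hp).2.2.2⟩)
        (fun p hp => ⟨(hQ p hp).1, (hQ p hp).2.1, (hQ p hp).2.2.1.2 ht', (hQ p hp).2.2.2⟩)
        ha0 hz hzA hzB hc hd
      simp only [hb0, zero_mul, add_zero]
      exact fin this m4
  · have ha0 := hs hs'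
    have hb0 : b ≠ 0 := hab'.resolve_left fun h => h ha0
    have ht' : t := by
      by_contra h
      exact hb0 (ht h)
    have := mix2 hL Q P B A z d c b
      (fun p hp => ⟨(hQ p hp).1, (hQ p hp).2.1, (hQ p hp).2.2.1.1 ht', (hQ p hp).2.2.2⟩)
      (fun p hp => ⟨(hP p hp).1, (hP p hp).2.1, (hP p hp).2.2.1.2 hs', (hP p hp).2.2.2⟩)
      hb0 hz hzB hzA hd hc
    have e2 : ∑ p ∈ P, ∑ q ∈ Q, c p * d q * (sg (Pool.Agent.Y703.CQ.nr p q) *
        ez (a * lam p q + b * lam q p)) =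
        ∑ q ∈ Q, ∑ p ∈ P, d q * c p * (sg (Pool.Agent.Y703.CQ.nr q p) * ez (b * lam q p)) := by
      rw [sum_comm]
      refine sum_congr rfl fun q hq => sum_congr rfl fun p hp => ?_
      rw [ha0, zero_mul, zero_add, mul_comm (c p), Pool.Agent.R413.SQ.BOX.nr_symm (hP p hp).1
        (hP p hp).2.1 (hQ q hq).1 (n2 hQ q hq)]
    rw [e2]
    rw [mul_comm (B : ℝ)] at this
    exact fin this m4

end Pool.Agent.H20PT.JL
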