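import Pool.Agent.Y419.CX.EQ
import Pool.Agent.Y356.CQ.EQ

/-!
# Joint equidistribution of the quadratic and the cubic symbols of a tuple of primes
-/

set_option autoImplicit false
set_option linter.unusedVariables false

open scoped Classical

namespace Pool.Agent.H20PT.JL

open Finset
open Pool.Agent.Y699.E (ez ez_zero ez_add ez_sum norm_ez sum_ez)
open Pool.Agent.Y703.CQ (nr sg)
open Pool.Agent.Y703.CX (lam)
open Pool.Agent.Y356.CQ (sg_zero sg_one sg_add sg_sum norm_sg sum_sg resample2)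

/-- the pairs for the quadratic symbols -/
noncomputable abbrev p2 (ι : Type) [Fintype ι] [LinearOrder ι] : Finset (ι × ι) :=
  Pool.Agent.Y703.CQ.prs (univ : Finset ι)

/-- the pairs for the cubic symbols -/
noncomputable abbrev p3 {ι : Type} [Fintype ι] (J1 : Finset ι) : Finset (ι × ι) :=
  Pool.Agent.Y703.CX.prs J1

theorem mem_p3 {ι : Type} [Fintype ι] {J1 : Finset ι} {i l : ι} : (i, l) ∈ p3 J1 ↔ i ∈ J1 ∧ l ≠ i := by
  unfold p3 Pool.Agent.Y703.CX.prs
  rw [Finset.mem_filter]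
  simp

theorem mem_p2 {ι : Type} [Fintype ι] [LinearOrder ι] {i l : ι} : (i, l) ∈ p2 ι ↔ i < l := by
  unfold p2 Pool.Agent.Y703.CQ.prs
  rw [Finset.mem_filter]
  simp only [mem_univ, true_and, forall_const]
  exact ⟨fun h => h.2, fun h => ⟨h.ne', h⟩⟩

variable {ι : Type} [Fintype ι] [LinearOrder ι]

/-- a sum does not depend on the instance -/
theorem sum_inst {α : Type} (i1 i2 : Fintype α) (f : α → ℂ) :
    @Finset.sum α ℂ _ (@Finset.univ α i1) f = @Finset.sum α ℂ _ (@Finset.univ α i2) f := by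
  rw [Subsingleton.elim i1 i2]

/-- a number of elements does not depend on the instances -/
theorem card_inst {α : Type} (i1 i2 : Fintype α) (P Q : α → Prop) (d1 : DecidablePred P)
    (d2 : DecidablePred Q) (h : ∀ x, P x ↔ Q x) :
    (@Finset.filter α P d1 (@Finset.univ α i1)).card =
      (@Finset.filter α Q d2 (@Finset.univ α i2)).card := by
  have e : i1 = i2 := Subsingleton.elim i1 i2
  subst e
  exact congrArg Finset.card (Finset.filter_congr fun x _ => h x)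

/-- the joint bilinear hypothesis for a box -/
def HJ (J1 : Finset ι) (C : ι → Finset ℕ) (X : ι → ℕ) (κ : ℝ) : Prop :=
  ∀ i l : ι, i ≠ l → ∀ (u : ZMod 2) (a b : ZMod 3) (c d : ℕ → ℂ), (u ≠ 0 ∨ a ≠ 0 ∨ b ≠ 0) →
    (i ∉ J1 → a = 0) → (l ∉ J1 → b = 0) → (∀ p, ‖c p‖ ≤ 1) → (∀ q, ‖d q‖ ≤ 1) →
    ‖∑ x ∈ C i, ∑ y ∈ C l, c x * d y * (sg (u * nr x y) * ez (a * lam x y + b * lam y x))‖ ≤
      κ * (X i * X l)

theorem lc3_split (g : ι × ι → ZMod 3) {i l : ι} (hil : i ≠ l) (p : ι → ℕ) :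
    ∃ u v : ℕ → ZMod 3, ∀ x y,
      Pool.Agent.Y419.CX.lc g (Function.update (Function.update p i x) l y) =
        u x + v y + (g (i, l) * lam x y + g (l, i) * lam y x) := by
  obtain ⟨u, v, h⟩ := Pool.Agent.Y419.CX.lc_split g hil p
  refine ⟨u, v, fun x y => ?_⟩
  rw [← h x y]
  congr 3 <;> exact Subsingleton.elim _ _

theorem sum_lcJ {J1 : Finset ι} {C : ι → Finset ℕ} {X : ι → ℕ} {κ : ℝ} (hκ : 0 ≤ κ)
    (hC : ∀ i, (C i).card ≤ X i) (H : HJ J1 C X κ) (g : ι × ι → ZMod 2) (f : ι × ι → ZMod 3)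
    (hg0 : ∀ e, e ∉ p2 ι → g e = 0) (hf0 : ∀ e, e ∉ p3 J1 → f e = 0)
    (hne : (∃ e, g e ≠ 0) ∨ ∃ e, f e ≠ 0) :
    ‖∑ p ∈ Fintype.piFinset C, sg (Pool.Agent.Y356.CQ.lc g p) * ez (Pool.Agent.Y419.CX.lc f p)‖ ≤
      κ * ∏ j, (X j : ℝ) := by
  obtain ⟨i, l, hlt, hnz⟩ : ∃ i l : ι, i < l ∧ (g (i, l) ≠ 0 ∨ f (i, l) ≠ 0 ∨ f (l, i) ≠ 0) := by
    rcases hne with ⟨⟨i, l⟩, he⟩ | ⟨⟨i, l⟩, he⟩
    · have hmem : (i, l) ∈ p2 ι := by
        by_contra h
        exact he (hg0 _ h)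
      exact ⟨i, l, mem_p2.1 hmem, Or.inl he⟩
    · have hmem : (i, l) ∈ p3 J1 := by
        by_contra h
        exact he (hf0 _ h)
      have h1 : l ≠ i := (mem_p3.1 hmem).2
      rcases lt_or_gt_of_ne h1 with h | h
      · exact ⟨l, i, h, Or.inr (Or.inr he)⟩
      · exact ⟨i, l, h, Or.inr (Or.inl he)⟩
  have hil : i ≠ l := hlt.ne
  have hg2 : g (l, i) = 0 := by
    refine hg0 _ fun h => ?_
    exact absurd hlt (not_lt.2 (mem_p2.1 h).le)
  have hpos : 0 ≤ κ * ∏ j, (X j : ℝ) :=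
    mul_nonneg hκ (Finset.prod_nonneg fun j _ => Nat.cast_nonneg _)
  by_cases hemp : (C i).card = 0 ∨ (C l).card = 0
  · have h0 : Fintype.piFinset C = ∅ := by
      rcases hemp with h | h
      · rw [Finset.card_eq_zero] at h
        exact Fintype.piFinset_eq_empty.2 ⟨i, h⟩
      · rw [Finset.card_eq_zero] at h
        exact Fintype.piFinset_eq_empty.2 ⟨l, h⟩
    rw [h0, Finset.sum_empty, norm_zero]
    exact hpos
  rw [not_or] at hemp
  have hci : (0 : ℝ) < (C i).card := by exact_mod_cast Nat.pos_of_ne_zero hemp.1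
  have hcl : (0 : ℝ) < (C l).card := by exact_mod_cast Nat.pos_of_ne_zero hemp.2
  have h1 := resample2 C i l
    (fun p => sg (Pool.Agent.Y356.CQ.lc g p) * ez (Pool.Agent.Y419.CX.lc f p))
  have h2 : ∀ p : ι → ℕ, ‖∑ x ∈ C i, ∑ y ∈ C l,
      sg (Pool.Agent.Y356.CQ.lc g (Function.update (Function.update p i x) l y)) *
        ez (Pool.Agent.Y419.CX.lc f (Function.update (Function.update p i x) l y))‖ ≤
      κ * (X i * X l) := by
    intro p
    obtain ⟨u, v, huv⟩ := Pool.Agent.Y356.CQ.lc_split g hil p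
    obtain ⟨u', v', huv'⟩ := lc3_split f hil p
    have h3 := H i l hil (g (i, l)) (f (i, l)) (f (l, i)) (fun x => sg (u x) * ez (u' x))
      (fun y => sg (v y) * ez (v' y)) hnz
      (fun h => hf0 _ (fun h' => h (mem_p3.1 h').1))
      (fun h => hf0 _ (fun h' => h (mem_p3.1 h').1))
      (fun x => by rw [norm_mul, norm_sg, norm_ez, one_mul])
      (fun y => by rw [norm_mul, norm_sg, norm_ez, one_mul])
    refine le_trans (le_of_eq ?_) h3
    congr 1
    refine Finset.sum_congr rfl fun x _ => Finset.sum_congr rfl fun y _ => ?_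
    rw [huv x y, huv' x y, hg2, zero_mul, add_zero, sg_add, sg_add, ez_add, ez_add]
    ring
  have h3 : (C i).card * ((C l).card * ‖∑ p ∈ Fintype.piFinset C,
      sg (Pool.Agent.Y356.CQ.lc g p) * ez (Pool.Agent.Y419.CX.lc f p)‖) ≤
      (∏ j, ((C j).card : ℝ)) * (κ * (X i * X l)) := by
    have e : (C i).card * ((C l).card * ‖∑ p ∈ Fintype.piFinset C,
        sg (Pool.Agent.Y356.CQ.lc g p) * ez (Pool.Agent.Y419.CX.lc f p)‖) =
        ‖((C i).card : ℂ) * ((C l).card * ∑ p ∈ Fintype.piFinset C,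
          sg (Pool.Agent.Y356.CQ.lc g p) * ez (Pool.Agent.Y419.CX.lc f p))‖ := by
      rw [norm_mul, norm_mul, Complex.norm_natCast, Complex.norm_natCast]
    rw [e, ← h1]
    refine (norm_sum_le _ _).trans ?_
    refine (Finset.sum_le_sum fun p _ => h2 p).trans ?_
    rw [Finset.sum_const, nsmul_eq_mul, Fintype.card_piFinset]
    push_cast
    exact le_rfl
  have h4 : ∏ j, ((C j).card : ℝ) = (C i).card * ((C l).card *
      ∏ j ∈ (univ.erase i).erase l, ((C j).card : ℝ)) := by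
    rw [← Finset.mul_prod_erase univ _ (Finset.mem_univ i),
      ← Finset.mul_prod_erase (univ.erase i) _ (Finset.mem_erase.2 ⟨hil.symm, Finset.mem_univ l⟩)]
  have h5 : ∏ j, (X j : ℝ) = X i * (X l * ∏ j ∈ (univ.erase i).erase l, (X j : ℝ)) := by
    rw [← Finset.mul_prod_erase univ _ (Finset.mem_univ i),
      ← Finset.mul_prod_erase (univ.erase i) _ (Finset.mem_erase.2 ⟨hil.symm, Finset.mem_univ l⟩)]
  rw [h4, mul_assoc, mul_assoc] at h3
  have h6 := le_of_mul_le_mul_left (le_of_mul_le_mul_left h3 hci) hcl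
  refine h6.trans ?_
  have h7 : ∏ j ∈ (univ.erase i).erase l, ((C j).card : ℝ) ≤
      ∏ j ∈ (univ.erase i).erase l, (X j : ℝ) :=
    Finset.prod_le_prod (fun _ _ => Nat.cast_nonneg _) fun j _ => by exact_mod_cast hC j
  rw [h5]
  calc (∏ j ∈ (univ.erase i).erase l, ((C j).card : ℝ)) * (κ * (X i * X l)) ≤
        (∏ j ∈ (univ.erase i).erase l, (X j : ℝ)) * (κ * (X i * X l)) := by
        gcongr
    _ = κ * (X i * (X l * ∏ j ∈ (univ.erase i).erase l, (X j : ℝ))) := by ring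

/-- the quadratic symbols of a tuple -/
noncomputable def s2 (p : ι → ℕ) : p2 ι → ZMod 2 := fun e => nr (p e.1.1) (p e.1.2)

/-- the cubic symbols of a tuple -/
noncomputable def s3 (J1 : Finset ι) (p : ι → ℕ) : p3 J1 → ZMod 3 := fun e => lam (p e.1.1) (p e.1.2)

/-- the detection of an event by characters -/
theorem fourier {V Ω : Type} [Fintype V] (o : V) (F : Finset Ω) (P : Ω → Prop) [DecidablePred P] (ψ : V → Ω → ℂ)
    (w : V → ℂ) (m R : ℝ) (hm : 0 < m) (hR : 0 ≤ R) (hcard : (Fintype.card V : ℝ) ≤ m)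
    (hw : ∀ γ, ‖w γ‖ ≤ 1) (hw0 : w o = 1) (hψ0 : ∀ p, ψ o p = 1)
    (hdet : ∀ p ∈ F, ∑ γ, w γ * ψ γ p = if P p then (m : ℂ) else 0)
    (hb : ∀ γ, γ ≠ o → ‖∑ p ∈ F, ψ γ p‖ ≤ R) :
    |((F.filter P).card : ℝ) - (F.card : ℝ) / m| ≤ R := by
  set N : ℝ := ((F.filter P).card : ℝ) with hN
  have h1 : ((N * m : ℝ) : ℂ) = ∑ γ, w γ * ∑ p ∈ F, ψ γ p := by
    have e1 : ((N * m : ℝ) : ℂ) = ∑ p ∈ F, (if P p then (m : ℂ) else 0) := by
      rw [← Finset.sum_filter, Finset.sum_const, nsmul_eq_mul, hN]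
      push_cast
      rfl
    rw [e1, ← Finset.sum_congr rfl hdet, Finset.sum_comm]
    exact Finset.sum_congr rfl fun γ _ => (Finset.mul_sum _ _ _).symm
  have h3 : ‖((N * m : ℝ) : ℂ) - (((F.card : ℝ)) : ℂ)‖ ≤ m * R := by
    have h2 : w o * ∑ p ∈ F, ψ o p = (((F.card : ℝ)) : ℂ) := by
      rw [hw0, one_mul]
      simp only [hψ0, Finset.sum_const, nsmul_eq_mul, mul_one]
      push_cast
      rfl
    rw [h1, ← h2, ← Finset.add_sum_erase univ _ (Finset.mem_univ o), add_sub_cancel_left]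
    refine (norm_sum_le _ _).trans ?_
    have h4 : ∀ γ ∈ univ.erase o, ‖w γ * ∑ p ∈ F, ψ γ p‖ ≤ R := by
      intro γ hγ
      rw [norm_mul]
      exact (mul_le_of_le_one_left (norm_nonneg _) (hw γ)).trans (hb γ (Finset.mem_erase.1 hγ).1)
    refine (Finset.sum_le_card_nsmul _ _ _ h4).trans ?_
    rw [nsmul_eq_mul]
    refine mul_le_mul_of_nonneg_right (le_trans ?_ hcard) hR
    exact_mod_cast Finset.card_le_univ (univ.erase o)
  rw [← Complex.ofReal_sub, Complex.norm_real, Real.norm_eq_abs] at h3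
  have h4 : N - (F.card : ℝ) / m = (N * m - F.card) / m := by
    field_simp
  rw [h4, abs_div, abs_of_pos hm, div_le_iff₀ hm, mul_comm R]
  exact h3

/-- the quadratic character -/
noncomputable def c2h (γ a : p2 ι → ZMod 2) : ℂ := sg (∑ e, γ e * a e)

/-- the cubic character -/
noncomputable def c3h {J1 : Finset ι} (γ b : p3 J1 → ZMod 3) : ℂ := ez (∑ e, γ e * b e)

theorem sum_ext2 (γ : p2 ι → ZMod 2) (p : ι → ℕ) : ∑ e, γ e * s2 p e =
    Pool.Agent.Y356.CQ.lc (fun e => if h : e ∈ p2 ι then γ ⟨e, h⟩ else 0) p := by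
  unfold s2
  rw [Pool.Agent.Y356.CQ.sum_ext]

theorem sum_ext3 {J1 : Finset ι} (γ : p3 J1 → ZMod 3) (p : ι → ℕ) : ∑ e, γ e * s3 J1 p e =
    Pool.Agent.Y419.CX.lc (fun e => if h : e ∈ p3 J1 then γ ⟨e, h⟩ else 0) p := by
  unfold s3
  have h1 := Pool.Agent.Y419.CX.sum_ext γ p
  refine h1.trans ?_
  unfold Pool.Agent.Y419.CX.lc
  refine Finset.sum_congr rfl fun e _ => ?_
  congr 1
  beta_reduce
  by_cases he : e ∈ p3 J1
  · rw [dif_pos he, dif_pos he]
  · rw [dif_neg he, dif_neg he]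

theorem norm_SJ {J1 : Finset ι} {C : ι → Finset ℕ} {X : ι → ℕ} {κ : ℝ} (hκ : 0 ≤ κ)
    (hC : ∀ i, (C i).card ≤ X i) (H : HJ J1 C X κ) (γ : (p2 ι → ZMod 2) × (p3 J1 → ZMod 3))
    (hγ : γ ≠ (0, 0)) :
    ‖∑ p ∈ Fintype.piFinset C, c2h γ.1 (s2 p) * c3h γ.2 (s3 J1 p)‖ ≤ κ * ∏ j, (X j : ℝ) := by
  have h1 : (∃ e, γ.1 e ≠ 0) ∨ ∃ e, γ.2 e ≠ 0 := by
    by_contra h
    push Not at h
    exact hγ (Prod.ext (funext h.1) (funext h.2))
  have h2 := sum_lcJ hκ hC H (fun e => if h : e ∈ p2 ι then γ.1 ⟨e, h⟩ else 0)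
    (fun e => if h : e ∈ p3 J1 then γ.2 ⟨e, h⟩ else 0)
    (fun e he => dif_neg he) (fun e he => dif_neg he) (by
      rcases h1 with ⟨e, he⟩ | ⟨e, he⟩
      · exact Or.inl ⟨e.1, by rw [dif_pos e.2]; exact he⟩
      · exact Or.inr ⟨e.1, by rw [dif_pos e.2]; exact he⟩)
  refine le_trans (le_of_eq ?_) h2
  congr 1
  refine Finset.sum_congr rfl fun p _ => ?_
  unfold c2h c3h
  rw [sum_ext2, sum_ext3]

theorem det2 (a : p2 ι → ZMod 2) (x : p2 ι → ZMod 2) :
    ∑ γ : p2 ι → ZMod 2, c2h γ (fun e => - a e) * c2h γ x =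
      if x = a then (2 : ℂ) ^ (p2 ι).card else 0 := by
  rw [← Pool.Agent.Y356.CQ.detect a x]
  refine Finset.sum_congr rfl fun γ _ => ?_
  unfold c2h
  rw [← sg_add, ← Finset.sum_add_distrib]
  congr 1
  exact Finset.sum_congr rfl fun e _ => by ring

theorem det3 {J1 : Finset ι} (b x : p3 J1 → ZMod 3) :
    ∑ γ : p3 J1 → ZMod 3, c3h γ (fun e => - b e) * c3h γ x =
      if x = b then (3 : ℂ) ^ (p3 J1).card else 0 := by
  have h := Pool.Agent.Y419.CX.detect b x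
  have e : ∑ γ : p3 J1 → ZMod 3, c3h γ (fun e => - b e) * c3h γ x =
      ∑ γ : p3 J1 → ZMod 3, ez (∑ e, γ e * (x e - b e)) := by
    refine Finset.sum_congr rfl fun γ _ => ?_
    unfold c3h
    rw [← ez_add, ← Finset.sum_add_distrib]
    congr 1
    exact Finset.sum_congr rfl fun e _ => by ring
  rw [e]
  refine (sum_inst _ _ _).trans (h.trans ?_)
  by_cases hx : x = b
  · rw [if_pos hx]
  · rw [if_neg hx]

/-- the count for one vector -/
theorem count_one {J1 : Finset ι} {C : ι → Finset ℕ} {X : ι → ℕ} {κ : ℝ} (hκ : 0 ≤ κ)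
    (hC : ∀ i, (C i).card ≤ X i) (H : HJ J1 C X κ) (a : p2 ι → ZMod 2) (b : p3 J1 → ZMod 3) :
    |(((Fintype.piFinset C).filter fun p => s2 p = a ∧ s3 J1 p = b).card : ℝ)
      - ((Fintype.piFinset C).card : ℝ) / (2 ^ (p2 ι).card * 3 ^ (p3 J1).card)| ≤
      κ * ∏ j, (X j : ℝ) := by
  refine fourier (V := (p2 ι → ZMod 2) × (p3 J1 → ZMod 3)) (0, 0) (Fintype.piFinset C)
    (fun p => s2 p = a ∧ s3 J1 p = b) (fun γ p => c2h γ.1 (s2 p) * c3h γ.2 (s3 J1 p))
    (fun γ => c2h γ.1 (fun e => - a e) * c3h γ.2 (fun e => - b e)) _ _ (by positivity)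
    (mul_nonneg hκ (Finset.prod_nonneg fun j _ => Nat.cast_nonneg _)) ?_ (fun γ => ?_) ?_ (fun p => ?_)
    (fun p _ => ?_) (norm_SJ hκ hC H)
  · apply le_of_eq
    rw [Fintype.card_prod, Fintype.card_fun, Fintype.card_fun, ZMod.card, ZMod.card,
      Fintype.card_coe, Fintype.card_coe]
    push_cast
    rfl
  · unfold c2h c3h
    rw [norm_mul, norm_sg, norm_ez, one_mul]
  · unfold c2h c3h
    simp only [Pi.zero_apply, zero_mul, Finset.sum_const_zero, sg_zero, ez_zero, mul_one]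
  · unfold c2h c3h
    simp only [Pi.zero_apply, zero_mul, Finset.sum_const_zero, sg_zero, ez_zero, mul_one]
  · rw [Fintype.sum_prod_type]
    have e : ∀ (x : p2 ι → ZMod 2) (y : p3 J1 → ZMod 3),
        c2h x (fun e => - a e) * c3h y (fun e => - b e) * (c2h x (s2 p) * c3h y (s3 J1 p)) =
        (c2h x (fun e => - a e) * c2h x (s2 p)) * (c3h y (fun e => - b e) * c3h y (s3 J1 p)) :=
      fun x y => by ring
    simp only [e]
    rw [← Finset.sum_mul_sum, det2, det3]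
    by_cases h1 : s2 p = a <;> by_cases h2 : s3 J1 p = b <;> simp [h1, h2]

/-- **joint equidistribution** -/
theorem eqJ {J1 : Finset ι} {C : ι → Finset ℕ} {X : ι → ℕ} {κ : ℝ} (hκ : 0 ≤ κ)
    (hC : ∀ i, (C i).card ≤ X i) (H : HJ J1 C X κ)
    (Q : (p2 ι → ZMod 2) × (p3 J1 → ZMod 3) → Prop) :
    |(((Fintype.piFinset C).filter fun p => Q (s2 p, s3 J1 p)).card : ℝ) -
      ((univ.filter Q).card : ℝ) / (2 ^ (p2 ι).card * 3 ^ (p3 J1).card) *
        ((Fintype.piFinset C).card : ℝ)| ≤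
    (2 ^ (p2 ι).card * 3 ^ (p3 J1).card) * (κ * ∏ j, (X j : ℝ)) := by
  have h1 : (((Fintype.piFinset C).filter fun p => Q (s2 p, s3 J1 p)).card : ℝ) =
      ∑ a ∈ univ.filter Q, (((Fintype.piFinset C).filter fun p =>
        s2 p = a.1 ∧ s3 J1 p = a.2).card : ℝ) := by
    rw [Finset.card_eq_sum_card_fiberwise (f := fun (p : ι → ℕ) => (s2 p, s3 J1 p))
      (t := univ.filter Q) (by
        intro p hp
        rw [Finset.mem_coe, Finset.mem_filter] at hp
        rw [Finset.mem_coe, Finset.mem_filter]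
        exact ⟨Finset.mem_univ _, hp.2⟩)]
    push_cast
    refine Finset.sum_congr rfl fun a ha => ?_
    rw [Finset.mem_filter] at ha
    congr 2
    ext p
    simp only [Finset.mem_filter]
    constructor
    · rintro ⟨⟨h2, h3⟩, h4⟩
      rw [Prod.ext_iff] at h4
      exact ⟨h2, h4⟩
    · rintro ⟨h2, h3, h4⟩
      have h5 : (s2 p, s3 J1 p) = a := Prod.ext h3 h4
      exact ⟨⟨h2, by rw [h5]; exact ha.2⟩, h5⟩
  have h2 : ((univ.filter Q).card : ℝ) / (2 ^ (p2 ι).card * 3 ^ (p3 J1).card) *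
        ((Fintype.piFinset C).card : ℝ) =
      ∑ a ∈ univ.filter Q, ((Fintype.piFinset C).card : ℝ) / (2 ^ (p2 ι).card * 3 ^ (p3 J1).card) := by
    rw [Finset.sum_const, nsmul_eq_mul]
    ring
  rw [h1, h2, ← Finset.sum_sub_distrib]
  refine (Finset.abs_sum_le_sum_abs _ _).trans ?_
  refine (Finset.sum_le_card_nsmul _ _ _ (fun a _ => count_one hκ hC H a.1 a.2)).trans ?_
  rw [nsmul_eq_mul]
  have hR0 : 0 ≤ κ * ∏ j, (X j : ℝ) :=
    mul_nonneg hκ (Finset.prod_nonneg fun j _ => Nat.cast_nonneg _)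
  refine mul_le_mul_of_nonneg_right ?_ hR0
  have h5 : (univ.filter Q).card ≤ 2 ^ (p2 ι).card * 3 ^ (p3 J1).card := by
    refine (Finset.card_le_univ _).trans (le_of_eq ?_)
    rw [Fintype.card_prod, Fintype.card_fun, Fintype.card_fun, ZMod.card, ZMod.card,
      Fintype.card_coe, Fintype.card_coe]
  exact_mod_cast h5

end Pool.Agent.H20PT.JL
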