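import Pool.Agent.H20PT.JL.Bil2
import Pool.Agent.H20PT.JL.Eq
import Pool.Agent.H20PT.KP.Reg

/-!
# The quadratic and the cubic symbols between the entries of a tuple are jointly equidistributed
-/

set_option autoImplicit false
set_option linter.unusedVariables false

open scoped Classical

namespace Pool.Agent.H20PT.JL

open Finset Filter Topology
open Pool.Agent.Y703.CX (sm la jj XX)
open Pool.Agent.Y703.CQ (nr sg)
open Pool.Agent.R413.SQ.KEY (le_XX root12)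
open Pool.Agent.H20PT.KP

variable {n : ℕ}

/-- the labels prescribe the residue modulo `3` -/
def Lr (J1 : Finset (Fin (n + 1))) (L : Fin (n + 1) → ℕ → Prop) : Prop :=
  ∀ i p, Pr p → L i p → R3 (i ∈ J1) p

theorem hbJ {C₁ : ℝ} (h1 : ∀ (P Q : Finset ℕ) (A B z : ℕ) (c d : ℕ → ℂ) (s t : Prop)
    (u : ZMod 2) (a b : ZMod 3),
    (∀ p ∈ P, p.Prime ∧ p % 4 = 1 ∧ R3 s p ∧ p ≤ A) → (∀ q ∈ Q, q.Prime ∧ q % 4 = 1 ∧ R3 t q ∧ q ≤ B) →
    Disjoint P Q → (u ≠ 0 ∨ a ≠ 0 ∨ b ≠ 0) → (¬ s → a = 0) → (¬ t → b = 0) →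
    1 ≤ z → z ≤ A → z ≤ B → (∀ p, ‖c p‖ ≤ 1) → (∀ q, ‖d q‖ ≤ 1) →
    ‖∑ p ∈ P, ∑ q ∈ Q, c p * d q * (sg (u * Pool.Agent.Y703.CQ.nr p q) *
      Pool.Agent.Y699.E.ez (a * Pool.Agent.Y703.CX.lam p q + b * Pool.Agent.Y703.CX.lam q p))‖ ^ 12 * z ≤
        C₁ * ((A : ℝ) * B) ^ 12)
    {z H : ℕ} (hH : 1 ≤ H) (hz : 1 ≤ z) {κ : ℝ} (hκ : 0 ≤ κ) (hκ1 : C₁ ≤ κ ^ 12 * z)
    {J1 : Finset (Fin (n + 1))} {L : Fin (n + 1) → ℕ → Prop} (hL : Lr J1 L) {j : Fin (n + 1) → ℕ}
    (hj : Function.Injective j) :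
    HJ J1 (fun i => Cb H z L i (j i)) (fun i => XX H (j i)) κ := by
  intro i l hil u a b c d hne ha hb hc hd
  show ‖∑ x ∈ Cb H z L i (j i), ∑ y ∈ Cb H z L l (j l), c x * d y * (sg (u * nr x y) *
      Pool.Agent.Y699.E.ez (a * Pool.Agent.Y703.CX.lam x y + b * Pool.Agent.Y703.CX.lam y x))‖ ≤
    κ * ((XX H (j i) : ℝ) * (XX H (j l) : ℝ))
  have hz0 : (0 : ℝ) < z := by exact_mod_cast hz
  have hk0 : (0 : ℝ) ≤ κ * ((XX H (j i) : ℝ) * (XX H (j l) : ℝ)) := by positivity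
  rcases (Cb H z L i (j i)).eq_empty_or_nonempty with he | ⟨p₀, hp₀⟩
  · rw [he, sum_empty, norm_zero]
    exact hk0
  rcases (Cb H z L l (j l)).eq_empty_or_nonempty with he | ⟨q₀, hq₀⟩
  · rw [he]
    simp only [sum_empty, sum_const_zero, norm_zero]
    exact hk0
  have hle : ∀ (i : Fin (n + 1)) (p : ℕ), p ∈ Cb H z L i (j i) → p ≤ XX H (j i) := by
    intro i p hp
    unfold Cb at hp
    exact (mem_Icc.1 (mem_filter.1 hp).1).2
  have hzi : z ≤ XX H (j i) := ((mem_Cb hH).1 hp₀).2.1.le.trans (hle i _ hp₀)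
  have hzl : z ≤ XX H (j l) := ((mem_Cb hH).1 hq₀).2.1.le.trans (hle l _ hq₀)
  have h3 := h1 (Cb H z L i (j i)) (Cb H z L l (j l)) (XX H (j i)) (XX H (j l)) z c d (i ∈ J1)
    (l ∈ J1) u a b
    (fun p hp => ⟨((mem_Cb hH).1 hp).1.1, ((mem_Cb hH).1 hp).1.2,
      hL i p ((mem_Cb hH).1 hp).1 ((mem_Cb hH).1 hp).2.2.2, hle i p hp⟩)
    (fun p hp => ⟨((mem_Cb hH).1 hp).1.1, ((mem_Cb hH).1 hp).1.2,
      hL l p ((mem_Cb hH).1 hp).1 ((mem_Cb hH).1 hp).2.2.2, hle l p hp⟩)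
    (by
      rw [disjoint_left]
      intro p hp hp'
      have h5 := ((mem_Cb hH).1 hp).2.2.1
      have h6 := ((mem_Cb hH).1 hp').2.2.1
      exact hil (hj (h5.symm.trans h6))) hne ha hb
    hz hzi hzl hc hd
  exact root12 (norm_nonneg _) hκ (Nat.cast_nonneg _) (Nat.cast_nonneg _) hz0 h3 hκ1

/-- the number of the patterns -/
noncomputable def nn (J1 : Finset (Fin (n + 1))) : ℝ :=
  2 ^ (p2 (Fin (n + 1))).card * 3 ^ (p3 J1).card

theorem nn_pos (J1 : Finset (Fin (n + 1))) : 0 < nn J1 := by unfold nn; positivity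

/-- the patterns -/
abbrev Pt (J1 : Finset (Fin (n + 1))) : Type := (p2 (Fin (n + 1)) → ZMod 2) × (p3 J1 → ZMod 3)

/-- the pattern of a tuple -/
noncomputable def pat (J1 : Finset (Fin (n + 1))) (p : Fin (n + 1) → ℕ) : Pt J1 := (s2 p, s3 J1 p)

/-- the sum over the boxes -/
theorem boxesJ : ∃ C : ℝ, 1 ≤ C ∧ ∀ (n X z H N : ℕ) (κ : ℝ) (J1 : Finset (Fin (n + 1)))
    (L : Fin (n + 1) → ℕ → Prop) (Q : Pt J1 → Prop), Lr J1 L → 1 ≤ H → 1 ≤ z → 0 ≤ κ →
    C ≤ κ ^ 12 * z → (H : ℝ) * Real.log X < N →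
    |(((Rg n H z X).filter fun p => (∀ i, L i (p i)) ∧ Q (pat J1 p)).card : ℝ) -
      ((univ.filter Q).card : ℝ) / nn J1 *
        (((Rg n H z X).filter fun p => ∀ i, L i (p i)).card : ℝ)| ≤
    (N : ℝ) ^ (n + 1) * (nn J1 * (κ * X)) := by
  obtain ⟨C, hC, h1⟩ := t_MIX
  refine ⟨C, hC, fun n X z H N κ J1 L Q hL hH hz hκ hκz hN => ?_⟩
  set A := (Rg n H z X).filter fun p => ∀ i, L i (p i) with hA
  set f : (Fin (n + 1) → ℕ) → (Fin (n + 1) → ℕ) := fun p i => jj H (p i) with hf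
  set T := A.image f with hT
  have hfib : ∀ P : (Fin (n + 1) → ℕ) → Prop, ((A.filter P).card : ℝ) =
      ∑ j ∈ T, (((A.filter P).filter fun p => f p = j).card : ℝ) := by
    intro P
    rw [card_eq_sum_card_fiberwise (f := f) (t := T)]
    · push_cast
      rfl
    · intro p hp
      exact mem_coe.2 (mem_image_of_mem f (mem_filter.1 (mem_coe.1 hp)).1)
  have hTj : ∀ j ∈ T, Function.Injective j ∧ ∏ i, XX H (j i) ≤ X := by
    intro j hj
    rw [hT, mem_image] at hj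
    obtain ⟨p, hp, rfl⟩ := hj
    rw [hA, mem_filter] at hp
    have := hp.1
    unfold Rg at this
    rw [mem_filter] at this
    exact this.2.2
  have hbox : ∀ j ∈ T, ∀ P : (Fin (n + 1) → ℕ) → Prop,
      (A.filter P).filter (fun p => f p = j) =
        (Fintype.piFinset fun i => Cb H z L i (j i)).filter P := by
    intro j hj P
    obtain ⟨h2, h3⟩ := hTj j hj
    ext p
    have h4 := box_iff (z := z) hH L h2 h3 p
    rw [mem_filter (p := P) (s := Fintype.piFinset _), Fintype.mem_piFinset, ← h4, hA]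
    simp only [mem_filter]
    tauto
  have hcard : T.card ≤ N ^ (n + 1) := by
    have hsub : T ⊆ Fintype.piFinset fun _ => range N := by
      intro j hj
      rw [hT, mem_image] at hj
      obtain ⟨p, hp, rfl⟩ := hj
      rw [Fintype.mem_piFinset]
      intro i
      rw [mem_range, hf]
      rw [hA, mem_filter] at hp
      have h2 := hp.1
      unfold Rg at h2
      rw [mem_filter] at h2
      have h3 := h2.1
      unfold TT at h3
      rw [mem_filter, Fintype.mem_piFinset] at h3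
      obtain ⟨h4, h5⟩ := mem_PP.1 (h3.1 i)
      have h6 : ((jj H (p i) : ℕ) : ℝ) < N := by
        have hp1 : (1 : ℝ) ≤ p i := by exact_mod_cast h4.1.one_le
        refine lt_of_le_of_lt (Nat.floor_le (mul_nonneg (Nat.cast_nonneg _)
          (Real.log_nonneg hp1))) ?_
        refine lt_of_le_of_lt ?_ hN
        refine mul_le_mul_of_nonneg_left ?_ (Nat.cast_nonneg _)
        exact Real.log_le_log (by linarith) (by exact_mod_cast h5)
      exact_mod_cast h6
    refine (card_le_card hsub).trans ?_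
    rw [Fintype.card_piFinset, prod_const, card_univ, Fintype.card_fin, card_range]
  obtain ⟨Tr, hTr⟩ : ∃ Tr : (Fin (n + 1) → ℕ) → Prop, ∀ p, Tr p := ⟨fun _ => True, fun _ => trivial⟩
  have hall : ∀ j ∈ T, |((((A.filter fun p => Q (pat J1 p)).filter fun p => f p = j).card : ℕ) : ℝ) -
      ((univ.filter Q).card : ℝ) / nn J1 *
        ((((A.filter Tr).filter fun p => f p = j).card : ℕ) : ℝ)| ≤
      nn J1 * (κ * X) := by
    intro j hj
    obtain ⟨h2, h3⟩ := hTj j hj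
    rw [hbox j hj, hbox j hj]
    have h4 := eqJ (J1 := J1) (C := fun i => Cb H z L i (j i)) (X := fun i => XX H (j i)) hκ
      (fun i => by
        refine (card_filter_le _ _).trans ?_
        rw [Nat.card_Icc]
        omega) (hbJ h1 hH hz hκ hκz hL h2) Q
    have h5 : (Fintype.piFinset fun i => Cb H z L i (j i)).filter Tr =
        Fintype.piFinset fun i => Cb H z L i (j i) := filter_true_of_mem fun p _ => hTr p
    rw [h5]
    have h6 : ∏ i, ((XX H (j i) : ℕ) : ℝ) ≤ X := by exact_mod_cast h3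
    refine le_trans (le_of_eq ?_) (h4.trans ?_)
    · unfold nn pat
      rfl
    · have h7 := nn_pos J1
      show nn J1 * _ ≤ _
      gcongr
  have e1 : ((Rg n H z X).filter fun p => (∀ i, L i (p i)) ∧ Q (pat J1 p)).card =
      (A.filter fun p => Q (pat J1 p)).card := by
    rw [hA, filter_filter]
  have e2 : A.card = (A.filter Tr).card := by rw [filter_true_of_mem fun p _ => hTr p]
  rw [e1, e2, hfib, hfib, mul_sum, ← sum_sub_distrib]
  refine (abs_sum_le_sum_abs _ _).trans ((sum_le_sum hall).trans ?_)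
  rw [sum_const, nsmul_eq_mul]
  refine mul_le_mul_of_nonneg_right ?_ (mul_nonneg (nn_pos J1).le (by positivity))
  exact_mod_cast hcard

/-- **the symbols are independent of the labels** -/
theorem symbolsJ {n : ℕ} {J1 : Finset (Fin (n + 1))} {L : Fin (n + 1) → ℕ → Prop} (hL : Lr J1 L)
    (Q : Pt J1 → Prop) :
    Ng n fun X => (((TT (n + 1) X).filter fun p => (∀ i, L i (p i)) ∧ Q (pat J1 p)).card : ℝ) -
      ((univ.filter Q).card : ℝ) / nn J1 *
        (((TT (n + 1) X).filter fun p => ∀ i, L i (p i)).card : ℝ) := by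
  obtain ⟨C, hC, hbox⟩ := boxesJ
  set B : ℕ := 12 * (4 * (n + 1) + 2) + 1 with hB
  set θ : ℝ := ((univ.filter Q).card : ℝ) / nn J1 with hθ
  have hnn := nn_pos J1
  have hθ0 : 0 ≤ θ := by positivity
  have h1 := (ng_nonreg n B).const_mul (1 + θ)
  have h2 := h1.add (ng_pow n 0 (4 ^ (n + 1) * nn J1))
  refine h2.of_le ?_
  filter_upwards [eventually_ge_atTop 3, t_log.eventually_ge_atTop (C + 1),
    t_log.eventually_ge_atTop 2] with X hX hl hl2
  have hX0 : (0 : ℝ) < X := by positivity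
  have hl0 : 0 < Real.log (X : ℝ) := by linarith
  have hH : 1 ≤ Hx X := by unfold Hx; omega
  have hz : 1 ≤ Zx B X := by
    unfold Zx
    rw [Nat.one_le_floor_iff]
    exact one_le_pow₀ (by linarith)
  set l := Real.log (X : ℝ) with hld
  set κ : ℝ := (l ^ (4 * (n + 1) + 2))⁻¹ with hκ
  have hκ0 : 0 ≤ κ := by positivity
  have hκz : C ≤ κ ^ 12 * Zx B X := by
    have e1 : l ^ B - 1 ≤ (Zx B X : ℝ) := by
      unfold Zx
      have := Nat.lt_floor_add_one (l ^ B)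
      linarith
    have e2 : κ ^ 12 * l ^ B = l := by
      rw [hκ, inv_pow, ← pow_mul, hB, show 12 * (4 * (n + 1) + 2) + 1 = (4 * (n + 1) + 2) * 12 + 1
        by ring, pow_succ]
      field_simp
    have e3 : κ ^ 12 ≤ 1 := by
      apply pow_le_one₀ hκ0
      rw [hκ]
      exact inv_le_one_of_one_le₀ (one_le_pow₀ (by linarith))
    have e4 := mul_le_mul_of_nonneg_left e1 (pow_nonneg hκ0 12)
    rw [mul_sub, e2, mul_one] at e4
    linarith
  set N : ℕ := ⌊(Hx X : ℝ) * l⌋₊ + 1 with hN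
  have hN1 : (Hx X : ℝ) * l < N := by
    rw [hN]
    push_cast
    exact Nat.lt_floor_add_one _
  have hN2 : (N : ℝ) ≤ 4 * l ^ 4 := by
    rw [hN]
    push_cast
    have e1 : ((⌊(Hx X : ℝ) * l⌋₊ : ℕ) : ℝ) ≤ (Hx X : ℝ) * l := Nat.floor_le (by positivity)
    have e2 : (Hx X : ℝ) ≤ l ^ 3 + 1 := by
      unfold Hx
      push_cast
      have := Nat.floor_le (show 0 ≤ Real.log (X : ℝ) ^ 3 by positivity)
      linarith
    have e3 : (Hx X : ℝ) * l ≤ (l ^ 3 + 1) * l := mul_le_mul_of_nonneg_right e2 hl0.le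
    have e4 : l ≤ l ^ 4 := by
      calc l = l ^ 1 := (pow_one l).symm
        _ ≤ l ^ 4 := pow_le_pow_right₀ (by linarith) (by norm_num)
    have e5 : 1 ≤ l ^ 4 := one_le_pow₀ (by linarith)
    have e6 : (l ^ 3 + 1) * l = l ^ 4 + l := by ring
    linarith
  have h3 := hbox n X (Zx B X) (Hx X) N κ J1 L Q hL hH hz hκ0 hκz hN1
  obtain ⟨d1, d2⟩ := rg_diff n (Hx X) (Zx B X) X fun p => (∀ i, L i (p i)) ∧ Q (pat J1 p)
  obtain ⟨d3, d4⟩ := rg_diff n (Hx X) (Zx B X) X fun p => ∀ i, L i (p i)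
  set a := (((TT (n + 1) X).filter fun p => (∀ i, L i (p i)) ∧ Q (pat J1 p)).card : ℝ)
  set b := (((TT (n + 1) X).filter fun p => ∀ i, L i (p i)).card : ℝ)
  set a' := (((Rg n (Hx X) (Zx B X) X).filter fun p => (∀ i, L i (p i)) ∧ Q (pat J1 p)).card : ℝ)
  set b' := (((Rg n (Hx X) (Zx B X) X).filter fun p => ∀ i, L i (p i)).card : ℝ)
  set r := (((TT (n + 1) X).filter fun p => p ∉ Rg n (Hx X) (Zx B X) X).card : ℝ)
  have e1 : (N : ℝ) ^ (n + 1) * (nn J1 * (κ * X)) ≤ 4 ^ (n + 1) * nn J1 * (X / l ^ (0 + 2)) := by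
    have e2 : (N : ℝ) ^ (n + 1) ≤ (4 * l ^ 4) ^ (n + 1) :=
      pow_le_pow_left₀ (Nat.cast_nonneg _) hN2 _
    calc (N : ℝ) ^ (n + 1) * (nn J1 * (κ * X)) ≤ (4 * l ^ 4) ^ (n + 1) * (nn J1 * (κ * X)) :=
          mul_le_mul_of_nonneg_right e2 (by positivity)
      _ = _ := by
          rw [hκ, mul_pow, ← pow_mul]
          field_simp
          ring
  have e2 : a - θ * b = (a' - θ * b') + ((a - a') - θ * (b - b')) := by ring
  rw [e2]
  refine (abs_add_le _ _).trans ?_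
  have e3 : |(a - a') - θ * (b - b')| ≤ (1 + θ) * r := by
    have e4 : 0 ≤ θ * (b - b') := mul_nonneg hθ0 (by linarith)
    have e5 : θ * (b - b') ≤ θ * r := mul_le_mul_of_nonneg_left (by linarith) hθ0
    rw [abs_le, add_mul, one_mul]
    constructor <;> nlinarith
  linarith

end Pool.Agent.H20PT.JL
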