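import Pool.Agent.H20PT.JL.Lab9
import Pool.Agent.V11291.FK.Cub

/-!
# The cubic symbols of a tuple and the trivial `√-3`-Selmer groups
-/

set_option autoImplicit false
set_option linter.unusedVariables false

open scoped Classical

namespace Pool.Agent.H20PT.JL

open Finset Filter Topology
open Pool.Agent.H20PT.KP
open Pool.Agent.H20PT.JL.Z9 (rs)
open Pool.Agent.Y703.CX (lam GdA)
open Pool.Agent.Y759.CX (pm)

variable {n : ℕ}

/-- the sets of primes without non-constant solutions (cubic twists) -/
def G3 (S : Finset ℕ) : Prop := Pool.Agent.Y703.CX.Gd S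

theorem gd_single (a : ℕ) : G3 {a} := by
  intro c hc p hp q hq
  rw [mem_singleton] at hp hq
  rw [hp, hq]

theorem pm_zero : pm 0 = 1 := by
  unfold pm
  simp

theorem card_Jr {r : Fin (n + 1) → Fin 6} (hr : Kr r) : (Jr r).card = n := by
  have h1 : (univ.filter fun i => rs (r i) % 3 = 2).card = 1 := hr.1
  have h2 := card_filter_add_card_filter_not (s := (univ : Finset (Fin (n + 1))))
    (fun i => rs (r i) % 3 = 1)
  have h3 : (univ.filter fun i => ¬ rs (r i) % 3 = 1) = univ.filter fun i => rs (r i) % 3 = 2 := by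
    refine filter_congr fun i _ => ?_
    have := rs3 (r i)
    omega
  rw [h3, h1, card_univ, Fintype.card_fin] at h2
  unfold Jr
  omega

/-- the trivial `√-3`-Selmer groups in terms of the cubic symbols -/
theorem hG3 (r : Fin (n + 1) → Fin 6) (hr : Kr r) : ∃ R : (p3 (Jr r) → ZMod 3) → Prop,
    ((univ.filter R).card : ℝ) / 3 ^ (p3 (Jr r)).card = pm n ∧
    ∀ p : Fin (n + 1) → ℕ, (∀ i, Pr (p i)) → Function.Injective p →
      (∀ i, p i % 9 = rs (r i)) → (G3 (univ.image p) ↔ R (s3 (Jr r) p)) := by
  have hcard := card_Jr hr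
  rcases (Jr r).eq_empty_or_nonempty with he | hne
  · have hn : n = 0 := by rw [← hcard, he, card_empty]
    subst hn
    obtain ⟨R, hR⟩ : ∃ R : (p3 (Jr r) → ZMod 3) → Prop, ∀ x, R x :=
      ⟨fun _ => True, fun _ => trivial⟩
    refine ⟨R, ?_, ?_⟩
    · have h1 : (univ.filter R).card = 3 ^ (p3 (Jr r)).card := by
        rw [filter_true_of_mem fun x _ => hR x, card_univ, Fintype.card_fun, ZMod.card,
          Fintype.card_coe]
      rw [h1, pm_zero]
      push_cast
      exact div_self (by positivity)
    · intro p _ _ _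
      refine iff_of_true ?_ (hR _)
      have h2 : univ.image p = {p 0} := by
        ext x
        rw [mem_image, mem_singleton]
        constructor
        · rintro ⟨i, -, rfl⟩
          have : i = 0 := Fin.ext (by omega)
          rw [this]
        · rintro rfl
          exact ⟨0, mem_univ _, rfl⟩
      rw [h2]
      exact gd_single _
  · obtain ⟨i₀, hi₀⟩ := card_eq_one.1 (show (univ.filter fun i => rs (r i) % 3 = 2).card = 1 from hr.1)
    refine ⟨fun α => GdA (univ.filter fun u : (∅ : Finset ℕ) => (u : ℕ) % 3 = 1) (Jr r)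
      (fun u v : (∅ : Finset ℕ) => lam u v) (fun (u : (∅ : Finset ℕ)) (l : Fin (n + 1)) => 0)
      (fun (k : Fin (n + 1)) (u : (∅ : Finset ℕ)) => 0) (Pool.Agent.Y703.CX.ext α), ?_, ?_⟩
    · have h2 := Pool.Agent.V11291.FK.Cb.LA3
        (univ.filter fun u : (∅ : Finset ℕ) => (u : ℕ) % 3 = 1) (Jr r) i₀
        (by rw [Fintype.card_fin, hcard]) (fun u v : (∅ : Finset ℕ) => lam u v)
        (fun (u : (∅ : Finset ℕ)) (l : Fin (n + 1)) => 0)
        (fun (k : Fin (n + 1)) (u : (∅ : Finset ℕ)) => 0)
      rw [hcard] at h2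
      rw [← h2]
      exact congrArg (fun m : ℕ => (m : ℝ) / 3 ^ (p3 (Jr r)).card)
        (card_inst _ _ _ _ _ _ fun x => Iff.rfl)
    · intro p hp hinj h9
      have hJ : ∀ i, p i % 3 = 1 ↔ i ∈ Jr r := by
        intro i
        have e : p i % 3 = rs (r i) % 3 := by
          rw [← h9 i, Nat.mod_mod_of_dvd _ (by norm_num : 3 ∣ 9)]
        unfold Jr
        rw [mem_filter, e]
        simp
      have e := Pool.Agent.Y911.CX.gd_iff (S₀ := ∅) hinj (fun i => Finset.notMem_empty _) hne hJ
      rw [Finset.empty_union] at e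
      unfold G3
      rw [e]
      have e1 : (fun (u : (∅ : Finset ℕ)) l => lam u (p l)) = fun _ _ => 0 := by
        funext u
        exact absurd u.2 (Finset.notMem_empty _)
      have e2 : (fun k (u : (∅ : Finset ℕ)) => lam (p k) u) = fun _ _ => 0 := by
        funext k u
        exact absurd u.2 (Finset.notMem_empty _)
      rw [e1, e2]
      exact Iff.rfl

end Pool.Agent.H20PT.JL
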