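import Pool.Agent.H20PT.JL.Z9
import Pool.Agent.H20PT.JL.Box
import Pool.Agent.H20PT.KP.Lab49

/-!
# The joint law of the labels, of the classes modulo `9` and of the symbols
-/

set_option autoImplicit false
set_option linter.unusedVariables false

open scoped Classical

namespace Pool.Agent.H20PT.JL

open Finset Filter Topology
open Pool.Agent.H20PT.Cls (HD)
open Pool.Agent.H20PT.KP
open Pool.Agent.H20PT.JL.Z9 (rs law_i law_one rs_lt)

variable {W : Finset ℕ}

/-- the density of a label and of a class modulo `9` -/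
theorem hd_lab9 (hW : ∀ p ∈ W, p.Prime ∧ p % 4 = 1) (a : La W) (t : Fin 6) :
    HD (fun q => (q % 4 = 1 ∧ q % 9 = rs t) ∧ q ∉ W ∧ lab W q = a)
      ((((univ.filter fun y => pj W y = a).card : ℝ) / Fintype.card (Mu W)) / 12) := by
  obtain ⟨o, v⟩ := a
  rw [card_Mu]
  rcases o with _ | f
  · rw [card_none]
    have h := law_i hW v t
    have e : (((2 : ℕ) : ℝ) / ((4 * 2 ^ W.card : ℕ) : ℝ)) / 12 = 1 / (24 * 2 ^ W.card) := by
      push_cast
      field_simp
      norm_num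
    rw [e]
    refine h.congr' 0 fun q _ hq => ?_
    unfold lab
    rw [nr_nsq]
    constructor
    · rintro ⟨⟨h1, h2, h9⟩, h3, h4⟩
      rw [mk_iff hq h1] at h2
      exact ⟨⟨h1, h9⟩, h3, by rw [if_neg h2]; exact Prod.ext rfl (funext h4)⟩
    · rintro ⟨⟨h1, h9⟩, h3, h4⟩
      rw [Prod.mk.injEq] at h4
      refine ⟨⟨h1, ?_, h9⟩, h3, fun p => congrFun h4.2 p⟩
      rw [mk_iff hq h1]
      intro h5
      rw [if_pos h5] at h4
      exact absurd h4.1 (by simp)
  · rw [card_some]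
    have h := law_one hW v f t
    have e : (((1 : ℕ) : ℝ) / ((4 * 2 ^ W.card : ℕ) : ℝ)) / 12 = 1 / (48 * 2 ^ W.card) := by
      push_cast
      field_simp
      norm_num
    rw [e]
    refine h.congr' 0 fun q _ hq => ?_
    unfold lab Pool.Agent.H20PT.Q4.Sp
    rw [nr_nsq, n4_nf]
    constructor
    · rintro ⟨⟨⟨h1, h2⟩, h9⟩, h3, h4, h5⟩
      rw [mk_iff hq h1] at h2
      exact ⟨⟨h1, h9⟩, h3, by rw [if_pos h2, h5]; exact Prod.ext rfl (funext h4)⟩
    · rintro ⟨⟨h1, h9⟩, h3, h4⟩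
      rw [Prod.mk.injEq] at h4
      by_cases h5 : R413.SQ.mk q = 1
      · rw [if_pos h5, Option.some.injEq] at h4
        exact ⟨⟨⟨h1, (mk_iff hq h1).2 h5⟩, h9⟩, h3, fun p => congrFun h4.2 p, h4.1⟩
      · rw [if_neg h5] at h4
        exact absurd h4.1 (by simp)

/-- the density of a label and of a class among the primes `≡ 1` modulo `4` -/
theorem dn_lab9 (hW : ∀ p ∈ W, p.Prime ∧ p % 4 = 1) (a : La W) (t : Fin 6) :
    Dn (fun q => lab W q = a ∧ q % 9 = rs t)
      ((((univ.filter fun y => pj W y = a).card : ℝ) / Fintype.card (Mu W)) / 6) := by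
  apply dn_of_hd
  have e : (((univ.filter fun y => pj W y = a).card : ℝ) / Fintype.card (Mu W)) / 6 / 2 =
      (((univ.filter fun y => pj W y = a).card : ℝ) / Fintype.card (Mu W)) / 12 := by ring
  rw [e]
  refine (hd_lab9 hW a t).congr' (W.sup id) fun q hq _ => ?_
  have : q ∉ W := fun h => absurd (le_sup (f := id) h) (not_le.2 hq)
  tauto

/-- the density of a class -/
theorem dn_nine (t : Fin 6) : Dn (fun q => (() : Unit) = () ∧ q % 9 = rs t) (1 / 6) := by
  apply dn_of_hd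
  have h := HD.sum (univ : Finset (La ∅))
    (fun a q => (q % 4 = 1 ∧ q % 9 = rs t) ∧ q ∉ (∅ : Finset ℕ) ∧ lab ∅ q = a)
    _ (fun a _ => hd_lab9 (W := ∅) (fun p hp => absurd hp (notMem_empty p)) a t) (by
      intro a _ b _ hab q h1 h2
      exact hab (h1.2.2.symm.trans h2.2.2))
  have e : ∑ a : La ∅, (((univ.filter fun y => pj ∅ y = a).card : ℝ) /
      Fintype.card (Mu ∅)) / 12 = 1 / 6 / 2 := by
    rw [← sum_div, ← sum_div]
    have e1 : ∑ a : La ∅, ((univ.filter fun y => pj ∅ y = a).card : ℝ) = Fintype.card (Mu ∅) := by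
      rw [← Finset.card_univ, card_eq_sum_card_fiberwise (f := pj ∅) (t := univ)
        (fun _ _ => mem_coe.2 (mem_univ _))]
      push_cast
      rfl
    rw [e1, div_self (by rw [card_Mu]; positivity)]
    norm_num
  rw [e] at h
  refine h.congr' 0 fun q _ _ => ?_
  constructor
  · rintro ⟨a, -, ⟨h1, h9⟩, -⟩
    exact ⟨h1, rfl, h9⟩
  · rintro ⟨h1, -, h9⟩
    exact ⟨lab ∅ q, mem_univ _, ⟨h1, h9⟩, notMem_empty _, rfl⟩

/-! ### the law -/

variable {n : ℕ}

/-- the condition on the residues -/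
def Kr (r : Fin (n + 1) → Fin 6) : Prop :=
  (univ.filter fun i => rs (r i) % 3 = 2).card = 1 ∧ (∏ i, rs (r i)) % 9 ≠ 1 ∧
    (∏ i, rs (r i)) % 9 ≠ 8

/-- the condition on a tuple -/
def Kp (p : Fin (n + 1) → ℕ) : Prop :=
  (univ.filter fun i => p i % 3 = 2).card = 1 ∧ (∏ i, p i) % 9 ≠ 1 ∧ (∏ i, p i) % 9 ≠ 8

/-- the indices of the primes `≡ 1` modulo `3` -/
def Jr (r : Fin (n + 1) → Fin 6) : Finset (Fin (n + 1)) := univ.filter fun i => rs (r i) % 3 = 1

theorem kp_iff {p : Fin (n + 1) → ℕ} {r : Fin (n + 1) → Fin 6} (h : ∀ i, p i % 9 = rs (r i)) :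
    Kp p ↔ Kr r := by
  have h3 : ∀ i, p i % 3 = rs (r i) % 3 := by
    intro i
    rw [← h i, Nat.mod_mod_of_dvd _ (by norm_num : 3 ∣ 9)]
  have h9 : (∏ i, p i) % 9 = (∏ i, rs (r i)) % 9 := by
    rw [Finset.prod_nat_mod]
    congr 1
    exact prod_congr rfl fun i _ => h i
  unfold Kp Kr
  rw [h9]
  simp only [h3]

theorem rs_inj : Function.Injective rs := by decide

theorem rs3 : ∀ t, rs t % 3 = 1 ∨ rs t % 3 = 2 := by decide

/-- the index of the class modulo `9` -/
noncomputable def ix (q : ℕ) : Fin 6 := if h : ∃ t, rs t = q % 9 then h.choose else 0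

theorem rs_ix {q : ℕ} (h : Pr q) : rs (ix q) = q % 9 := by
  have h1 : ∃ t, rs t = q % 9 := by
    have h2 : ∀ m : Fin 9, (m : ℕ) % 3 ≠ 0 → ∃ t, rs t = m := by decide
    refine h2 ⟨q % 9, Nat.mod_lt _ (by norm_num)⟩ ?_
    show q % 9 % 3 ≠ 0
    rw [Nat.mod_mod_of_dvd _ (by norm_num : 3 ∣ 9)]
    intro h3
    have h4 := (Nat.prime_dvd_prime_iff_eq (by norm_num) h.1).1 (Nat.dvd_of_mod_eq_zero h3)
    have h5 := h.2
    omega
  unfold ix
  rw [dif_pos h1]
  exact h1.choose_spec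

theorem ix_iff {q : ℕ} (h : Pr q) (t : Fin 6) : ix q = t ↔ q % 9 = rs t := by
  rw [← rs_ix h]
  exact ⟨fun h1 => by rw [h1], fun h1 => rs_inj h1⟩

/-- **the joint law** -/
theorem jlaw {Λ : Type} [Fintype Λ] (lab : ℕ → Λ) (μ : Λ → ℝ)
    (h : ∀ a t, Dn (fun p => lab p = a ∧ p % 9 = rs t) (μ a / 6))
    (Q : (Fin (n + 1) → Λ) → (p2 (Fin (n + 1)) → ZMod 2) → Prop) (G : (Fin (n + 1) → ℕ) → Prop)
    (ρ : ℝ) (hG : ∀ r : Fin (n + 1) → Fin 6, Kr r → ∃ R : (p3 (Jr r) → ZMod 3) → Prop,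
      ((univ.filter R).card : ℝ) / 3 ^ (p3 (Jr r)).card = ρ ∧
      ∀ p : Fin (n + 1) → ℕ, (∀ i, Pr (p i)) → Function.Injective p →
        (∀ i, p i % 9 = rs (r i)) → (G p ↔ R (s3 (Jr r) p))) :
    Ng n fun X =>
      (((TT (n + 1) X).filter fun p => Kp p ∧ Q (fun i => lab (p i)) (s2 p) ∧ G p).card : ℝ) -
      (ρ * (((univ.filter fun r : Fin (n + 1) → Fin 6 => Kr r).card : ℝ) / 6 ^ (n + 1)) *
        ∑ a : Fin (n + 1) → Λ, (∏ i, μ (a i)) *
          (((univ.filter (Q a)).card : ℝ) / 2 ^ (p2 (Fin (n + 1))).card)) *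
        ((TT (n + 1) X).card : ℝ) := by
  have h1 : ∀ x ∈ (univ : Finset (Fin (n + 1) → Λ)) ×ˢ
      (univ.filter fun r : Fin (n + 1) → Fin 6 => Kr r), Ng n fun X =>
      (((TT (n + 1) X).filter fun p => (∀ i, lab (p i) = x.1 i ∧ p i % 9 = rs (x.2 i)) ∧
        Q x.1 (s2 p) ∧ G p).card : ℝ) -
        ((∏ i, (μ (x.1 i) / 6)) *
          ((((univ.filter (Q x.1)).card : ℝ) / 2 ^ (p2 (Fin (n + 1))).card) * ρ)) *
          ((TT (n + 1) X).card : ℝ) := by
    rintro ⟨a, r⟩ hx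
    have hr : Kr r := (mem_filter.1 (mem_product.1 hx).2).2
    obtain ⟨R, hR1, hR2⟩ := hG r hr
    obtain ⟨L, hLd⟩ : ∃ L : Fin (n + 1) → ℕ → Prop,
        ∀ i p, L i p ↔ (lab p = a i ∧ p % 9 = rs (r i)) := ⟨_, fun _ _ => Iff.rfl⟩
    have hL : Lr (Jr r) L := by
      intro i p hp hpL
      rw [hLd] at hpL
      have e : p % 3 = rs (r i) % 3 := by
        rw [← hpL.2, Nat.mod_mod_of_dvd _ (by norm_num : 3 ∣ 9)]
      unfold R3 Jr
      rw [mem_filter, e]
      have := rs3 (r i)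
      refine ⟨fun h => h.2, fun h => ?_⟩
      simp only [mem_univ, true_and] at h
      omega
    obtain ⟨Q', hQ'⟩ : ∃ Q' : Pt (Jr r) → Prop, ∀ x, Q' x ↔ (Q a x.1 ∧ R x.2) :=
      ⟨fun x => Q a x.1 ∧ R x.2, fun _ => Iff.rfl⟩
    have h2 := symbolsJ hL Q'
    have h3 := labels (L := L) (μ := fun i => μ (a i) / 6)
      (fun i => by
        have e : L i = fun p => lab p = a i ∧ p % 9 = rs (r i) := by
          funext p
          exact propext (hLd i p)
        rw [e]
        exact h (a i) (r i)) univ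
    have hc : (univ.filter Q').card =
        (univ.filter (Q a)).card * (univ.filter R).card := by
      rw [← card_product]
      congr 1
      ext x
      simp only [mem_filter, mem_univ, true_and, mem_product, hQ']
    have hc2 : ((univ.filter Q').card : ℝ) / nn (Jr r) =
        (((univ.filter (Q a)).card : ℝ) / 2 ^ (p2 (Fin (n + 1))).card) * ρ := by
      rw [hc, ← hR1]
      unfold nn
      push_cast
      rw [div_mul_div_comm]
    rw [hc2] at h2
    have h4 := h2.add (h3.const_mul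
      ((((univ.filter (Q a)).card : ℝ) / 2 ^ (p2 (Fin (n + 1))).card) * ρ))
    refine h4.congr fun X => ?_
    have e : (TT (n + 1) X).filter (fun p => ∀ i ∈ (univ : Finset (Fin (n + 1))), L i (p i)) =
        (TT (n + 1) X).filter fun p => ∀ i, L i (p i) := by
      refine filter_congr fun p _ => ?_
      simp
    have e2 : (TT (n + 1) X).filter (fun p => (∀ i, L i (p i)) ∧ Q' (pat (Jr r) p)) =
        (TT (n + 1) X).filter fun p => (∀ i, lab (p i) = a i ∧ p i % 9 = rs (r i)) ∧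
          Q a (s2 p) ∧ G p := by
      refine filter_congr fun p hp => ?_
      rw [mem_TT] at hp
      simp only [hLd]
      refine and_congr_right fun h5 => ?_
      rw [hQ', hR2 p hp.1 hp.2.1 fun i => (h5 i).2]
      rfl
    rw [e, e2]
    ring
  refine (Ng.sum _ h1).congr fun X => ?_
  rw [sum_sub_distrib, ← sum_mul]
  have hval : ∑ x ∈ (univ : Finset (Fin (n + 1) → Λ)) ×ˢ
      (univ.filter fun r : Fin (n + 1) → Fin 6 => Kr r), ((∏ i, (μ (x.1 i) / 6)) *
        ((((univ.filter (Q x.1)).card : ℝ) / 2 ^ (p2 (Fin (n + 1))).card) * ρ)) =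
      ρ * (((univ.filter fun r : Fin (n + 1) → Fin 6 => Kr r).card : ℝ) / 6 ^ (n + 1)) *
        ∑ a : Fin (n + 1) → Λ, (∏ i, μ (a i)) *
          (((univ.filter (Q a)).card : ℝ) / 2 ^ (p2 (Fin (n + 1))).card) := by
    rw [sum_product, mul_sum]
    refine sum_congr rfl fun a _ => ?_
    show ∑ y ∈ (univ.filter fun r : Fin (n + 1) → Fin 6 => Kr r), ((∏ i, (μ (a i) / 6)) *
      ((((univ.filter (Q a)).card : ℝ) / 2 ^ (p2 (Fin (n + 1))).card) * ρ)) = _
    rw [sum_const, nsmul_eq_mul, prod_div_distrib, prod_const, card_univ, Fintype.card_fin]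
    ring
  rw [hval]
  congr 1
  have h2 : ((TT (n + 1) X).filter fun p => Kp p ∧ Q (fun i => lab (p i)) (s2 p) ∧ G p).card =
      ∑ x ∈ (univ : Finset (Fin (n + 1) → Λ)) ×ˢ
      (univ.filter fun r : Fin (n + 1) → Fin 6 => Kr r),
        ((TT (n + 1) X).filter fun p => (∀ i, lab (p i) = x.1 i ∧ p i % 9 = rs (x.2 i)) ∧
        Q x.1 (s2 p) ∧ G p).card := by
    rw [card_eq_sum_card_fiberwise
      (f := fun (p : Fin (n + 1) → ℕ) => ((fun i => lab (p i)), (fun i => ix (p i))))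
      (t := (univ : Finset (Fin (n + 1) → Λ)) ×ˢ
        (univ.filter fun r : Fin (n + 1) → Fin 6 => Kr r))]
    · refine sum_congr rfl fun x hx => ?_
      have hxr : Kr x.2 := (mem_filter.1 (mem_product.1 hx).2).2
      congr 1
      ext p
      simp only [mem_filter]
      constructor
      · rintro ⟨⟨h3, h4, h5, h6⟩, h7⟩
        have hp := mem_TT.1 h3
        rw [← h7]
        exact ⟨h3, fun i => ⟨rfl, (rs_ix (hp.1 i)).symm⟩, h5, h6⟩
      · rintro ⟨h3, h4, h5, h6⟩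
        have hp := mem_TT.1 h3
        have e1 : (fun i => lab (p i)) = x.1 := funext fun i => (h4 i).1
        have e2 : (fun i => ix (p i)) = x.2 := funext fun i => (ix_iff (hp.1 i) _).2 (h4 i).2
        refine ⟨⟨h3, (kp_iff fun i => (h4 i).2).2 hxr, ?_, h6⟩, Prod.ext e1 e2⟩
        rw [e1]
        exact h5
    · intro p hp
      rw [mem_coe, mem_filter] at hp
      have hp1 := mem_TT.1 hp.1
      rw [mem_coe, mem_product, mem_filter]
      exact ⟨mem_univ _, mem_univ _, (kp_iff fun i => (rs_ix (hp1.1 i)).symm).1 hp.2.1⟩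
  rw [h2]
  push_cast
  rfl

/-- the residues exist -/
theorem kr_pos (n : ℕ) : 0 < (univ.filter fun r : Fin (n + 1) → Fin 6 => Kr r).card := by
  rw [card_pos]
  refine ⟨fun i => if i = 0 then 1 else 0, mem_filter.2 ⟨mem_univ _, ?_, ?_⟩⟩
  · rw [card_eq_one]
    refine ⟨0, ?_⟩
    ext i
    simp only [mem_filter, mem_univ, true_and, mem_singleton]
    by_cases hi : i = 0
    · simp [hi, rs]
    · simp [hi, rs]
  · have e : ∏ i : Fin (n + 1), rs (if i = 0 then 1 else 0) = 2 := by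
      rw [Fin.prod_univ_succ]
      have h1 : ∀ i : Fin n, rs (if i.succ = 0 then 1 else 0) = 1 := by
        intro i
        rw [if_neg (Fin.succ_ne_zero i)]
        rfl
      rw [prod_congr rfl fun i _ => h1 i]
      simp [rs]
    rw [e]
    norm_num

end Pool.Agent.H20PT.JL
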