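import Pool.Agent.H20PT.JL.Cubic
import Pool.Agent.H20PT.KP.Fin

/-!
# The joint law for the numbers with `k` prime factors
-/

set_option autoImplicit false
set_option linter.unusedVariables false

open scoped Classical

namespace Pool.Agent.H20PT.JL

open Finset Filter Topology
open Pool.Agent.H20PT.KP
open Pool.Agent.H20PT.JL.Z9 (rs)
open Pool.Agent.Y759.CX (pm fr)
open Pool.Agent.Y703.CQ (nr prs)
open Pool.Agent.Y703.CX (Cl)

variable {n : ℕ}

/-- the requirement on the condition at `3` -/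
def HG (n : ℕ) (G : Finset ℕ → Prop) (ρ : ℝ) : Prop :=
  ∀ r : Fin (n + 1) → Fin 6, Kr r → ∃ R : (p3 (Jr r) → ZMod 3) → Prop,
    ((univ.filter R).card : ℝ) / 3 ^ (p3 (Jr r)).card = ρ ∧
    ∀ p : Fin (n + 1) → ℕ, (∀ i, Pr (p i)) → Function.Injective p →
      (∀ i, p i % 9 = rs (r i)) → (G (univ.image p) ↔ R (s3 (Jr r) p))

theorem hg_G3 : HG n G3 (pm n) := hG3

theorem hg_not {G : Finset ℕ → Prop} {ρ : ℝ} (h : HG n G ρ) : HG n (fun S => ¬ G S) (1 - ρ) := by
  intro r hr
  obtain ⟨R, hR1, hR2⟩ := h r hr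
  obtain ⟨R', hR'⟩ : ∃ R' : (p3 (Jr r) → ZMod 3) → Prop, ∀ x, R' x ↔ ¬ R x :=
    ⟨fun x => ¬ R x, fun _ => Iff.rfl⟩
  refine ⟨R', ?_, fun p h1 h2 h3 => ?_⟩
  · have h1 := card_filter_add_card_filter_not (s := (univ : Finset (p3 (Jr r) → ZMod 3))) R
    have h2 : (univ.filter fun x => ¬ R x) = univ.filter R' :=
      filter_congr fun x _ => (hR' x).symm
    rw [h2, card_univ, Fintype.card_fun, ZMod.card, Fintype.card_coe] at h1
    have h3 : ((univ.filter R).card : ℝ) + ((univ.filter R').card : ℝ) =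
        (3 : ℝ) ^ (p3 (Jr r)).card := by exact_mod_cast h1
    rw [← hR1, eq_sub_iff_add_eq, ← add_div, add_comm, h3]
    exact div_self (by positivity)
  · show ¬ G (univ.image p) ↔ R' (s3 (Jr r) p)
    rw [hR', hR2 p h1 h2 h3]

theorem hg_true {G : Finset ℕ → Prop} (hG : ∀ S, G S) : HG n G 1 := by
  intro r hr
  obtain ⟨R, hR⟩ : ∃ R : (p3 (Jr r) → ZMod 3) → Prop, ∀ x, R x :=
    ⟨fun _ => True, fun _ => trivial⟩
  refine ⟨R, ?_, fun p _ _ _ => iff_of_true (hG _) (hR _)⟩
  rw [filter_true_of_mem fun x _ => hR x, card_univ, Fintype.card_fun, ZMod.card, Fintype.card_coe]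
  push_cast
  exact div_self (by positivity)

/-- the proportion of the residues -/
noncomputable def kap (n : ℕ) : ℝ :=
  ((univ.filter fun r : Fin (n + 1) → Fin 6 => Kr r).card : ℝ) / 6 ^ (n + 1)

theorem kap_pos (n : ℕ) : 0 < kap n := by
  unfold kap
  have := kr_pos n
  have h : (0 : ℝ) < ((univ.filter fun r : Fin (n + 1) → Fin 6 => Kr r).card : ℝ) := by
    exact_mod_cast this
  positivity

/-- the condition of the class for the tuples -/
theorem kp_cl {X : ℕ} {p : Fin (n + 1) → ℕ} (hp : p ∈ TT (n + 1) X) :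
    Kp p ↔ Cl (univ.image p) := by
  rw [mem_TT] at hp
  have h1 : ((univ.image p).filter fun q => q % 3 = 2).card =
      (univ.filter fun i => p i % 3 = 2).card := by
    rw [filter_image, card_image_of_injective _ hp.2.1]
  have h2 : ∏ q ∈ univ.image p, q = ∏ i, p i := prod_image fun a _ b _ h => hp.2.1 h
  unfold Kp Cl
  rw [h1, h2]
  refine ⟨fun h => ⟨fun q hq => ?_, h⟩, fun h => h.2⟩
  rw [mem_image] at hq
  obtain ⟨i, -, rfl⟩ := hq
  refine ⟨(hp.1 i).1, fun h3 => ?_⟩
  have := (hp.1 i).2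
  rw [h3] at this
  norm_num at this

/-- the proportion of the class -/
theorem lawK (n : ℕ) : Tendsto (fun X : ℕ => (((TT (n + 1) X).filter fun p => Kp p).card : ℝ) /
    ((TT (n + 1) X).card : ℝ)) atTop (𝓝 (kap n)) := by
  obtain ⟨T, hT⟩ : ∃ T : Finset ℕ → Prop, ∀ S, T S := ⟨fun _ => True, fun _ => trivial⟩
  obtain ⟨Q, hQ⟩ : ∃ Q : (Fin (n + 1) → Unit) → (p2 (Fin (n + 1)) → ZMod 2) → Prop, ∀ a x, Q a x :=
    ⟨fun _ _ => True, fun _ _ => trivial⟩
  have h := jlaw (n := n) (Λ := Unit) (fun _ => ()) (fun _ => 1)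
    (fun a t => by
      have := dn_nine t
      exact this) Q (fun p => T (univ.image p)) 1 (hg_true (n := n) hT)
  have h2 := Ng.ratio h
  have e1 : ∀ X, ((TT (n + 1) X).filter fun p => Kp p ∧ Q (fun i => ()) (s2 p) ∧
      T (univ.image p)) = (TT (n + 1) X).filter fun p => Kp p := by
    intro X
    refine filter_congr fun p _ => ?_
    exact ⟨fun h => h.1, fun h => ⟨h, hQ _ _, hT _⟩⟩
  have e2 : (1 : ℝ) * (((univ.filter fun r : Fin (n + 1) → Fin 6 => Kr r).card : ℝ) / 6 ^ (n + 1)) *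
        ∑ a : Fin (n + 1) → Unit, (∏ i : Fin (n + 1), (1 : ℝ)) *
          (((univ.filter (Q a)).card : ℝ) / 2 ^ (p2 (Fin (n + 1))).card) = kap n := by
    have e3 : ∀ a : Fin (n + 1) → Unit, (∏ i : Fin (n + 1), (1 : ℝ)) *
          (((univ.filter (Q a)).card : ℝ) / 2 ^ (p2 (Fin (n + 1))).card) = 1 := by
      intro a
      rw [filter_true_of_mem fun x _ => hQ a x, card_univ, Fintype.card_fun, ZMod.card,
        Fintype.card_coe, prod_const_one, one_mul]
      push_cast
      exact div_self (by positivity)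
    rw [sum_congr rfl fun a _ => e3 a, sum_const, card_univ]
    unfold kap
    simp
  rw [e2] at h2
  refine h2.congr fun X => ?_
  rw [e1 X]

/-- the value of the sum over the labels -/
theorem val {W : Finset ℕ} (hW : ∀ u ∈ W, u.Prime ∧ u % 4 = 1)
    (Φ : (Fin (n + 1) → La W) → (prs (univ : Finset (Fin (n + 1))) → ZMod 2) → Prop) :
    ∑ a : Fin (n + 1) → La W, (∏ i, (((univ.filter fun y => pj W y = a i).card : ℝ) /
      Fintype.card (Mu W))) * (((univ.filter (Φ a)).card : ℝ) / 2 ^ (p2 (Fin (n + 1))).card) =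
    fr (fun x : Om W (n + 1) => Φ (pr1 W x.1) x.2) :=
  tendsto_nhds_unique (law (n := n) (lab W) _ (fun a => dn_lab hW a) Φ) (lawW hW Φ)

/-- **The joint law for the tuples.** -/
theorem lawJT {W : Finset ℕ} (hW : ∀ u ∈ W, u.Prime ∧ u % 4 = 1)
    (Φ : (Fin (n + 1) → La W) → (prs (univ : Finset (Fin (n + 1))) → ZMod 2) → Prop)
    {G : Finset ℕ → Prop} {ρ : ℝ} (hG : HG n G ρ) :
    Tendsto (fun X : ℕ => (((TT (n + 1) X).filter fun p => Kp p ∧ Φ (fun i => lab W (p i)) (sy p) ∧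
      G (univ.image p)).card : ℝ) / ((TT (n + 1) X).card : ℝ)) atTop
      (𝓝 (ρ * kap n * fr (fun x : Om W (n + 1) => Φ (pr1 W x.1) x.2))) := by
  have h := jlaw (n := n) (lab W) (fun a => ((univ.filter fun y => pj W y = a).card : ℝ) /
      Fintype.card (Mu W)) (fun a t => dn_lab9 hW a t) Φ (fun p => G (univ.image p)) ρ hG
  have h2 := Ng.ratio h
  rw [val hW Φ] at h2
  exact h2

/-- **The joint law for the numbers with `n + 1` prime factors.** -/
theorem lawJ {W : Finset ℕ} (hW : ∀ u ∈ W, u.Prime ∧ u % 4 = 1)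
    (Φ : (Fin (n + 1) → La W) → (prs (univ : Finset (Fin (n + 1))) → ZMod 2) → Prop)
    (P : Finset ℕ → Prop) (B : ℕ) (h : ∀ p : Fin (n + 1) → ℕ, Function.Injective p →
      (∀ i, Pr (p i)) → (∀ i, B < p i) → (P (univ.image p) ↔ Φ (fun i => lab W (p i)) (sy p)))
    {G : Finset ℕ → Prop} {ρ : ℝ} (hG : HG n G ρ) :
    Tendsto (fun X : ℕ => (((Icc 1 X).filter fun D => Ak (n + 1) D ∧ (Cl D.primeFactors ∧
        P D.primeFactors ∧ G D.primeFactors)).card : ℝ) /
      (((Icc 1 X).filter fun D => Ak (n + 1) D ∧ Cl D.primeFactors).card : ℝ)) atTop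
      (𝓝 (fr (fun x : Om W (n + 1) => Φ (pr1 W x.1) x.2) * ρ)) := by
  have h1 := lawJT (n := n) hW Φ hG
  -- the exceptional tuples
  have h2 : Tendsto (fun X : ℕ => (((TT (n + 1) X).filter fun p => ∃ j, p j ≤ B).card : ℝ) /
      ((TT (n + 1) X).card : ℝ)) atTop (𝓝 0) := by
    apply Ng.ratio
    have h3 := small n (fun _ => B) 1 (by
      filter_upwards [t_log.eventually_ge_atTop (B : ℝ)] with X hX
      rw [pow_one]
      exact hX)
    refine Ng.congr h3 fun X => ?_
    rw [zero_mul, sub_zero]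
  obtain ⟨A1, hA1⟩ : ∃ A1 : (Fin (n + 1) → ℕ) → Prop, ∀ p, A1 p ↔ (Kp p ∧ P (univ.image p) ∧
    G (univ.image p)) := ⟨_, fun _ => Iff.rfl⟩
  obtain ⟨A2, hA2⟩ : ∃ A2 : (Fin (n + 1) → ℕ) → Prop, ∀ p, A2 p ↔ (Kp p ∧
    Φ (fun i => lab W (p i)) (sy p) ∧ G (univ.image p)) := ⟨_, fun _ => Iff.rfl⟩
  have h1' : Tendsto (fun X : ℕ => (((TT (n + 1) X).filter A2).card : ℝ) /
      ((TT (n + 1) X).card : ℝ)) atTop
      (𝓝 (ρ * kap n * fr (fun x : Om W (n + 1) => Φ (pr1 W x.1) x.2))) := by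
    refine h1.congr fun X => ?_
    congr 3
    exact filter_congr fun p _ => (hA2 p).symm
  have h3 : Tendsto (fun X : ℕ => (((TT (n + 1) X).filter A1).card : ℝ) /
      ((TT (n + 1) X).card : ℝ)) atTop
      (𝓝 (ρ * kap n * fr (fun x : Om W (n + 1) => Φ (pr1 W x.1) x.2))) := by
    have h4 : Tendsto (fun X : ℕ => (((TT (n + 1) X).filter A1).card : ℝ) /
      ((TT (n + 1) X).card : ℝ) - (((TT (n + 1) X).filter A2).card : ℝ) /
        ((TT (n + 1) X).card : ℝ)) atTop (𝓝 0) := by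
      refine squeeze_zero_norm (fun X => ?_) h2
      rw [← sub_div, norm_div, Real.norm_eq_abs, Real.norm_of_nonneg (Nat.cast_nonneg _)]
      refine div_le_div_of_nonneg_right ?_ (Nat.cast_nonneg _)
      have hsub : ∀ p ∈ TT (n + 1) X, (¬ ∃ j, p j ≤ B) → (A1 p ↔ A2 p) := by
        intro p hp hB
        push Not at hB
        rw [mem_TT] at hp
        rw [hA1, hA2, h p hp.2.1 hp.1 hB]
      have a1 : (TT (n + 1) X).filter A1 ⊆
          (TT (n + 1) X).filter A2 ∪ (TT (n + 1) X).filter fun p => ∃ j, p j ≤ B := by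
        intro p hp
        rw [mem_filter] at hp
        rw [mem_union, mem_filter, mem_filter]
        by_cases hB : ∃ j, p j ≤ B
        · exact Or.inr ⟨hp.1, hB⟩
        · exact Or.inl ⟨hp.1, (hsub p hp.1 hB).1 hp.2⟩
      have a2 : (TT (n + 1) X).filter A2 ⊆
          (TT (n + 1) X).filter A1 ∪ (TT (n + 1) X).filter fun p => ∃ j, p j ≤ B := by
        intro p hp
        rw [mem_filter] at hp
        rw [mem_union, mem_filter, mem_filter]
        by_cases hB : ∃ j, p j ≤ B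
        · exact Or.inr ⟨hp.1, hB⟩
        · exact Or.inl ⟨hp.1, (hsub p hp.1 hB).2 hp.2⟩
      have b1 := (card_le_card a1).trans (card_union_le _ _)
      have b2 := (card_le_card a2).trans (card_union_le _ _)
      have c1 : (((TT (n + 1) X).filter A1).card : ℝ) ≤
          (((TT (n + 1) X).filter A2).card : ℝ) +
            (((TT (n + 1) X).filter fun p => ∃ j, p j ≤ B).card : ℝ) := by exact_mod_cast b1
      have c2 : (((TT (n + 1) X).filter A2).card : ℝ) ≤
          (((TT (n + 1) X).filter A1).card : ℝ) +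
            (((TT (n + 1) X).filter fun p => ∃ j, p j ≤ B).card : ℝ) := by exact_mod_cast b2
      rw [abs_le]
      constructor <;> linarith
    have h5 := h4.add h1'
    rw [zero_add] at h5
    refine h5.congr fun X => ?_
    ring
  have h6 := h3.div (lawK n) (kap_pos n).ne'
  have e0 : ρ * kap n * fr (fun x : Om W (n + 1) => Φ (pr1 W x.1) x.2) / kap n =
      fr (fun x : Om W (n + 1) => Φ (pr1 W x.1) x.2) * ρ := by
    have := (kap_pos n).ne'
    field_simp
  rw [e0] at h6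
  have h7 : Tendsto (fun X : ℕ => (((TT (n + 1) X).filter A1).card : ℝ) /
      (((TT (n + 1) X).filter fun p => Kp p).card : ℝ)) atTop
      (𝓝 (fr (fun x : Om W (n + 1) => Φ (pr1 W x.1) x.2) * ρ)) := by
    refine h6.congr' ?_
    obtain ⟨c, hc, hlow⟩ := lowT n
    filter_upwards [hlow, W_pos n] with X h8 h9
    have h10 : (0 : ℝ) < ((TT (n + 1) X).card : ℝ) := lt_of_lt_of_le (by positivity) h8
    show (((TT (n + 1) X).filter A1).card : ℝ) / ((TT (n + 1) X).card : ℝ) /
      ((((TT (n + 1) X).filter fun p => Kp p).card : ℝ) / ((TT (n + 1) X).card : ℝ)) = _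
    rw [div_div_div_cancel_right₀ h10.ne']
  refine h7.congr fun X => ?_
  obtain ⟨P1, hP1⟩ : ∃ P1 : Finset ℕ → Prop, ∀ S, P1 S ↔ (Cl S ∧ P S ∧ G S) :=
    ⟨_, fun _ => Iff.rfl⟩
  have k1 := card_tup (n + 1) X P1
  have k2 := card_tup (n + 1) X Cl
  have e1 : (TT (n + 1) X).filter (fun p => P1 (univ.image p)) = (TT (n + 1) X).filter A1 := by
    refine filter_congr fun p hp => ?_
    rw [hP1, hA1, kp_cl hp]
  have e2 : (TT (n + 1) X).filter (fun p => Cl (univ.image p)) =
      (TT (n + 1) X).filter fun p => Kp p := by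
    refine filter_congr fun p hp => ?_
    rw [kp_cl hp]
  have e3 : (Icc 1 X).filter (fun D => Ak (n + 1) D ∧ P1 D.primeFactors) =
      (Icc 1 X).filter fun D => Ak (n + 1) D ∧ (Cl D.primeFactors ∧ P D.primeFactors ∧
        G D.primeFactors) := by
    refine filter_congr fun D _ => ?_
    rw [hP1]
  rw [e1, e3] at k1
  rw [e2] at k2
  rw [k1, k2]
  push_cast
  rw [mul_div_mul_left]
  exact_mod_cast (Nat.factorial_pos (n + 1)).ne'

/-- the proportion of the class among the numbers with `n + 1` prime factors -/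
theorem lawC (n : ℕ) : Tendsto (fun X : ℕ => (((Icc 1 X).filter fun D => Ak (n + 1) D ∧
        Cl D.primeFactors).card : ℝ) /
      (((Icc 1 X).filter fun D => Ak (n + 1) D).card : ℝ)) atTop (𝓝 (kap n)) := by
  refine (lawK n).congr fun X => ?_
  rw [← ratio_eq (n + 1) X Cl]
  have e2 : (TT (n + 1) X).filter (fun p => Cl (univ.image p)) =
      (TT (n + 1) X).filter fun p => Kp p := by
    refine filter_congr fun p hp => ?_
    rw [kp_cl hp]
  rw [e2]

end Pool.Agent.H20PT.JL
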