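import Pool.Agent.H20PT.Q4L

/-!
# The joint law of the symbols, of the quartic symbol of `-7` and of the class modulo `9`
-/

set_option autoImplicit false
set_option linter.unusedSectionVars false

namespace Pool.Agent.H20PT.JL.Z9

open NumberField Filter Topology Finset Pool.Agent.W401.Cheb Polynomial
open Pool.Agent.H20PT.X49 (nsq qh qh_surj nsq_eq vec vec_bij)
open Q283.TW (frob_sqrt ng gal_sqrt)
open Pool.Agent.H20PT.Cls (HD)
open Pool.Agent.H20PT.Q4
open scoped Classical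

/-! ### quadratic symbols and residues modulo `252` -/

/-- the units with residues in `l` -/
noncomputable def Dl (l : Finset ℕ) (h : ∀ a ∈ l, Nat.Coprime a 252) : Finset (ZMod 252)ˣ :=
  l.attach.image fun a => ZMod.unitOfCoprime a.1 (h a.1 a.2)

theorem card_Dl (l : Finset ℕ) (h : ∀ a ∈ l, Nat.Coprime a 252) (h2 : ∀ a ∈ l, a < 252) :
    (Dl l h).card = l.card := by
  unfold Dl
  rw [card_image_of_injective, card_attach]
  intro a b hab
  have h3 := congrArg Units.val hab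
  simp only [ZMod.coe_unitOfCoprime] at h3
  rw [ZMod.natCast_eq_natCast_iff', Nat.mod_eq_of_lt (h2 a.1 a.2), Nat.mod_eq_of_lt (h2 b.1 b.2)] at h3
  exact Subtype.ext h3

theorem mem_Dl (l : Finset ℕ) (h : ∀ a ∈ l, Nat.Coprime a 252) (h2 : ∀ a ∈ l, a < 252) (q : ℕ) :
    (∃ c ∈ Dl l h, (q : ZMod 252) = c) ↔ q % 252 ∈ l := by
  unfold Dl
  constructor
  · rintro ⟨c, hc, h3⟩
    rw [mem_image] at hc
    obtain ⟨a, -, rfl⟩ := hc
    rw [ZMod.coe_unitOfCoprime, ZMod.natCast_eq_natCast_iff', Nat.mod_eq_of_lt (h2 a.1 a.2)] at h3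
    rw [h3]
    exact a.2
  · intro h3
    refine ⟨_, mem_image.2 ⟨⟨_, h3⟩, mem_attach _ _, rfl⟩, ?_⟩
    rw [ZMod.coe_unitOfCoprime, ZMod.natCast_eq_natCast_iff', Nat.mod_mod]

variable {P : Finset ℕ}

/-- the law of the quadratic symbols and of the residue modulo `252` -/
theorem law_res (hP : ∀ p ∈ P, p.Prime ∧ p % 4 = 1) (u : P → ZMod 2) (l : Finset ℕ)
    (hl : ∀ a ∈ l, Nat.Coprime a 252) (hl2 : ∀ a ∈ l, a < 252) :
    HD (fun q => q % 252 ∈ l ∧ q ∉ P ∧ ∀ p : P, nsq p q = u p) (l.card / (72 * 2 ^ P.card)) := by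
  have hpr : ∀ p ∈ P, p.Prime := fun p hp => (hP p hp).1
  have h28 : ∀ p ∈ P, ¬ p ∣ 252 := by
    intro p hp hd
    have h1 := (hP p hp)
    have h2 : p ∣ 2 ^ 2 * (3 ^ 2 * 7) := by norm_num; exact hd
    rcases h1.1.dvd_mul.1 h2 with h3 | h3
    · have := h1.1.dvd_of_dvd_pow h3
      have h4 := (Nat.prime_dvd_prime_iff_eq h1.1 Nat.prime_two).1 this
      omega
    · rcases h1.1.dvd_mul.1 h3 with h3 | h3
      · have := h1.1.dvd_of_dvd_pow h3
        have h4 := (Nat.prime_dvd_prime_iff_eq h1.1 Nat.prime_three).1 this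
        omega
      · have h4 := (Nat.prime_dvd_prime_iff_eq h1.1 (by norm_num)).1 h3
        omega
  set f : ∀ p : P, (ZMod (p : ℕ))ˣ →* ℤˣ := fun p => qh p (hpr p p.2) with hf
  obtain ⟨v0, hv0⟩ := vec_bij.2 u
  set T : Finset ((ZMod 252)ˣ × (P → ℤˣ)) := Dl l hl ×ˢ {v0} with hT
  have hd := dist_gen (m := 252) (P := P) (by norm_num) hpr h28 f
    (fun p => qh_surj (hpr p p.2) (by
      intro h
      have := (hP p p.2).2
      omega)) T
  have hlim : (T.card : ℝ) / (((252 : ℕ).totient : ℕ) * Fintype.card ℤˣ ^ P.card) =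
      l.card / (72 * 2 ^ P.card) := by
    have h1 : (252 : ℕ).totient = 72 := by decide +kernel
    have h2 : Fintype.card ℤˣ = 2 := rfl
    rw [hT, Finset.card_product, card_Dl l hl hl2, Finset.card_singleton, h1, h2]
    push_cast
    ring
  rw [hlim] at hd
  have hd' : HD (InT f T) (l.card / (72 * 2 ^ P.card)) := hd
  clear hd
  refine hd'.congr' 7 (fun q hq7 hq => ?_)
  have hex : ∀ (v : P → ℤˣ), (∀ p : P, ∃ y : (ZMod (p : ℕ))ˣ, (q : ZMod (p : ℕ)) = y ∧ f p y = v p) →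
      ∀ p : P, vec v p = nsq p q := by
    intro v hv p
    unfold vec
    obtain ⟨y, hy1, hy2⟩ := hv p
    rw [nsq_eq (hpr p p.2) hy1, ← hy2]
  unfold InT
  constructor
  · rintro ⟨x, hx, h1, h2⟩
    rw [hT, Finset.mem_product, Finset.mem_singleton] at hx
    refine ⟨(mem_Dl l hl hl2 q).1 ⟨x.1, hx.1, h1⟩, ?_, fun p => ?_⟩
    · intro hqP
      obtain ⟨y, hy1, -⟩ := h2 ⟨q, hqP⟩
      have h3 : ((q : ℕ) : ZMod q) = 0 := ZMod.natCast_self q
      haveI : Fact q.Prime := ⟨hq⟩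
      have h4 : ((q : ℕ) : ZMod q) = (y : ZMod q) := hy1
      rw [h3] at h4
      exact y.ne_zero h4.symm
    · rw [← hex x.2 h2 p, hx.2, hv0]
  · rintro ⟨a, c, d⟩
    obtain ⟨w, hw1, hw2⟩ := (mem_Dl l hl hl2 q).2 a
    have hun : ∀ p : P, ∃ y : (ZMod (p : ℕ))ˣ, (q : ZMod (p : ℕ)) = y := by
      intro p
      have h3 : Nat.Coprime q p := by
        rw [Nat.coprime_primes hq (hpr p p.2)]
        exact fun h => c (h ▸ p.2)
      exact ⟨ZMod.unitOfCoprime q h3, (ZMod.coe_unitOfCoprime q h3).symm⟩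
    choose y hy using hun
    have hv : ∀ p : P, ∃ y' : (ZMod (p : ℕ))ˣ, (q : ZMod (p : ℕ)) = y' ∧ f p y' = f p (y p) :=
      fun p => ⟨y p, hy p, rfl⟩
    refine ⟨(w, fun p => f p (y p)), ?_, hw2, hv⟩
    rw [hT, Finset.mem_product, Finset.mem_singleton]
    refine ⟨hw1, ?_⟩
    apply vec_bij.1
    rw [hv0]
    funext p
    rw [hex _ hv p]
    exact d p

/-- the residues of the units modulo `9` -/
def rs : Fin 6 → ℕ := ![1, 2, 4, 5, 7, 8]

/-- the split residues -/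
def ls (t : Fin 6) : Finset ℕ :=
  (range 252).filter fun a => a % 4 = 1 ∧ (a % 7 = 1 ∨ a % 7 = 2 ∨ a % 7 = 4) ∧ a % 9 = rs t

/-- the inert residues -/
def li (t : Fin 6) : Finset ℕ :=
  (range 252).filter fun a => a % 4 = 1 ∧ (a % 7 = 3 ∨ a % 7 = 5 ∨ a % 7 = 6) ∧ a % 9 = rs t

theorem ls_card : ∀ t, (ls t).card = 3 := by decide +kernel
theorem li_card : ∀ t, (li t).card = 3 := by decide +kernel
theorem ls_cop : ∀ t, ∀ a ∈ ls t, Nat.Coprime a 252 := by decide +kernel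
theorem li_cop : ∀ t, ∀ a ∈ li t, Nat.Coprime a 252 := by decide +kernel

theorem mem_ls (t : Fin 6) (q : ℕ) : q % 252 ∈ ls t ↔
    q % 4 = 1 ∧ (q % 7 = 1 ∨ q % 7 = 2 ∨ q % 7 = 4) ∧ q % 9 = rs t := by
  unfold ls
  rw [mem_filter, mem_range, Nat.mod_mod_of_dvd q (by norm_num : 4 ∣ 252),
    Nat.mod_mod_of_dvd q (by norm_num : 7 ∣ 252), Nat.mod_mod_of_dvd q (by norm_num : 9 ∣ 252)]
  exact ⟨fun h => h.2, fun h => ⟨Nat.mod_lt _ (by norm_num), h⟩⟩

theorem mem_li (t : Fin 6) (q : ℕ) : q % 252 ∈ li t ↔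
    q % 4 = 1 ∧ (q % 7 = 3 ∨ q % 7 = 5 ∨ q % 7 = 6) ∧ q % 9 = rs t := by
  unfold li
  rw [mem_filter, mem_range, Nat.mod_mod_of_dvd q (by norm_num : 4 ∣ 252),
    Nat.mod_mod_of_dvd q (by norm_num : 7 ∣ 252), Nat.mod_mod_of_dvd q (by norm_num : 9 ∣ 252)]
  exact ⟨fun h => h.2, fun h => ⟨Nat.mod_lt _ (by norm_num), h⟩⟩

/-- the law without the quartic symbol, split primes -/
theorem law_s (hP : ∀ p ∈ P, p.Prime ∧ p % 4 = 1) (u : P → ZMod 2) (t : Fin 6) :
    HD (fun q => (Sp q ∧ q % 9 = rs t) ∧ q ∉ P ∧ ∀ p : P, nsq p q = u p) (1 / (24 * 2 ^ P.card)) := by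
  have h := law_res hP u (ls t) (ls_cop t) (fun a ha => mem_range.1 (mem_filter.1 ha).1)
  rw [ls_card] at h
  have e : (((3 : ℕ) : ℝ)) / (72 * 2 ^ P.card) = 1 / (24 * 2 ^ P.card) := by
    push_cast
    field_simp
    norm_num
  rw [e] at h
  refine h.congr' 7 fun q hq7 hq => ?_
  haveI : Fact q.Prime := ⟨hq⟩
  rw [mem_ls]
  have h3 : ∀ _h4 : q % 4 = 1, (IsSquare (-7 : ZMod q) ↔ (q % 7 = 1 ∨ q % 7 = 2 ∨ q % 7 = 4)) :=
    fun h4 => Q283.TW.neg7_iff q (by omega) (by omega)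
  unfold Sp
  constructor
  · rintro ⟨⟨a, b, c⟩, d⟩
    exact ⟨⟨⟨a, (h3 a).2 b⟩, c⟩, d⟩
  · rintro ⟨⟨⟨a, b⟩, c⟩, d⟩
    exact ⟨⟨a, (h3 a).1 b, c⟩, d⟩

/-- the law of the inert primes -/
theorem law_i (hP : ∀ p ∈ P, p.Prime ∧ p % 4 = 1) (u : P → ZMod 2) (t : Fin 6) :
    HD (fun q => (q % 4 = 1 ∧ ¬ IsSquare (-7 : ZMod q) ∧ q % 9 = rs t) ∧ q ∉ P ∧
      ∀ p : P, nsq p q = u p) (1 / (24 * 2 ^ P.card)) := by
  have h := law_res hP u (li t) (li_cop t) (fun a ha => mem_range.1 (mem_filter.1 ha).1)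
  rw [li_card] at h
  have e : (((3 : ℕ) : ℝ)) / (72 * 2 ^ P.card) = 1 / (24 * 2 ^ P.card) := by
    push_cast
    field_simp
    norm_num
  rw [e] at h
  refine h.congr' 7 fun q hq7 hq => ?_
  haveI : Fact q.Prime := ⟨hq⟩
  rw [mem_li]
  have h3 : ∀ _h4 : q % 4 = 1, (IsSquare (-7 : ZMod q) ↔ (q % 7 = 1 ∨ q % 7 = 2 ∨ q % 7 = 4)) :=
    fun h4 => Q283.TW.neg7_iff q (by omega) (by omega)
  have h5 : ¬ q % 7 = 0 := by
    intro h0
    have h6 := (Nat.prime_dvd_prime_iff_eq (by norm_num) hq).1 (Nat.dvd_of_mod_eq_zero h0)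
    omega
  constructor
  · rintro ⟨⟨a, b, c⟩, d⟩
    exact ⟨⟨a, fun h => by have := (h3 a).1 h; omega, c⟩, d⟩
  · rintro ⟨⟨a, b, c⟩, d⟩
    refine ⟨⟨a, ?_, c⟩, d⟩
    by_contra hc
    apply b
    rw [h3 a]
    omega

/-! ### the field -/

/-- the data -/
structure Dat9 (L : Type) [Field L] [NumberField L] [IsGalois ℚ L] (P : Finset ℕ) where
  E : Dat L P
  z : 𝓞 L
  hz : z ^ 6 + z ^ 3 + 1 = 0

theorem exists_dat9 (P : Finset ℕ) : ∃ (L : Type) (_ : Field L) (_ : NumberField L)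
    (_ : IsGalois ℚ L), Nonempty (Dat9 L P) := by
  set h1 : ℚ[X] := X ^ 2 - C (-1) with hh1
  set h2 : ℚ[X] := X ^ 4 - C (-7) with hh2
  set h3 : ℚ[X] := X ^ 6 + X ^ 3 + 1 with hh3
  set q : ℕ → ℚ[X] := fun a => X ^ 2 - C (a : ℚ) with hq
  set f : ℚ[X] := (h1 * h2) * (h3 * ∏ a ∈ P, q a) with hf
  have hd1 : h1.natDegree = 2 := natDegree_X_pow_sub_C
  have hd2 : h2.natDegree = 4 := natDegree_X_pow_sub_C
  have hd3 : h3.natDegree = 6 := by rw [hh3]; compute_degree!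
  have hqd : ∀ a, (q a).natDegree = 2 := fun a => natDegree_X_pow_sub_C
  have h10 : h1 ≠ 0 := by intro h0; rw [h0] at hd1; simp at hd1
  have h20 : h2 ≠ 0 := by intro h0; rw [h0] at hd2; simp at hd2
  have h30 : h3 ≠ 0 := by intro h0; rw [h0] at hd3; simp at hd3
  have hq0 : ∀ a, q a ≠ 0 := by intro a h0; have := hqd a; rw [h0] at this; simp at this
  have hf0 : f ≠ 0 := mul_ne_zero (mul_ne_zero h10 h20)
    (mul_ne_zero h30 (Finset.prod_ne_zero_iff.2 fun a _ => hq0 a))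
  obtain ⟨L, hL, hN, hG, hsp⟩ := Q283.TW.gen_split_rat f
  refine ⟨L, hL, hN, hG, ?_⟩
  have hfm : f.map (algebraMap ℚ L) ≠ 0 := by
    rwa [Ne, Polynomial.map_eq_zero]
  have key : ∀ g : ℚ[X], g ∣ f → g.natDegree ≠ 0 →
      ∃ x : L, (g.map (algebraMap ℚ L)).eval x = 0 := by
    intro g hg hd
    have h1 := hsp.of_dvd hfm (Polynomial.map_dvd _ hg)
    refine h1.exists_eval_eq_zero ?_
    rw [Polynomial.degree_map]
    intro h2
    exact hd (natDegree_eq_of_degree_eq_some h2)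
  obtain ⟨z, hz⟩ := key h1 ((Dvd.intro _ rfl : h1 ∣ h1 * h2).mul_right _) (by rw [hd1]; norm_num)
  obtain ⟨a, ha⟩ := key h2 ((Dvd.intro_left _ rfl : h2 ∣ h1 * h2).mul_right _)
    (by rw [hd2]; norm_num)
  obtain ⟨b, hb⟩ := key h3 ((Dvd.intro _ rfl : h3 ∣ h3 * ∏ a ∈ P, q a).mul_left _)
    (by rw [hd3]; norm_num)
  have hev : ∀ (n : ℕ) (c : ℚ) (x : L), ((X ^ n - C c : ℚ[X]).map (algebraMap ℚ L)).eval x =
      x ^ n - algebraMap ℚ L c := by
    intro n c x
    simp only [Polynomial.map_sub, Polynomial.map_pow, Polynomial.map_X, Polynomial.map_C, eval_sub,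
      eval_pow, eval_X, eval_C]
  have hz' : z ^ 2 = -1 := by
    rw [hh1, hev, map_neg, map_one] at hz
    linear_combination hz
  have ha' : a ^ 4 = -7 := by
    rw [hh2, hev, map_neg, map_ofNat] at ha
    linear_combination ha
  have hb' : b ^ 6 + b ^ 3 + 1 = 0 := by
    rw [hh3] at hb
    simpa only [Polynomial.map_add, Polynomial.map_pow, Polynomial.map_X, Polynomial.map_one, eval_add,
      eval_pow, eval_X, eval_one] using hb
  have hzi : IsIntegral ℤ z := by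
    refine IsIntegral.of_pow (n := 2) (by norm_num) ?_
    rw [hz']
    exact isIntegral_one.neg
  have hai : IsIntegral ℤ a := by
    refine IsIntegral.of_pow (n := 4) (by norm_num) ?_
    rw [ha']
    have : IsIntegral ℤ ((7 : ℤ) : L) := isIntegral_algebraMap (R := ℤ) (x := 7)
    have h7 : (-7 : L) = -((7 : ℤ) : L) := by push_cast; rfl
    rw [h7]
    exact this.neg
  have hbi : IsIntegral ℤ b := by
    refine IsIntegral.of_pow (n := 9) (by norm_num) ?_
    have : b ^ 9 = 1 := by linear_combination (b ^ 3 - 1) * hb'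
    rw [this]
    exact isIntegral_one
  have hs : ∀ p : ℕ, ∃ x : L, p ∈ P → x ^ 2 = (((p : ℕ) : ℤ) : L) := by
    intro p
    by_cases hp : p ∈ P
    · obtain ⟨x, hx⟩ := key (q p) (((Finset.dvd_prod_of_mem q hp).mul_left _).mul_left _)
        (by rw [hqd]; norm_num)
      refine ⟨x, fun _ => ?_⟩
      rw [hq, hev, map_natCast] at hx
      push_cast
      linear_combination hx
    · exact ⟨0, fun h => absurd h hp⟩
  choose s hs' using hs
  refine ⟨⟨⟨⟨z, hzi⟩, ⟨a, hai⟩, s, ?_, ?_, hs'⟩, ⟨b, hbi⟩, ?_⟩⟩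
  · apply RingOfIntegers.coe_injective
    rw [map_pow, map_neg, map_one]
    exact hz'
  · apply RingOfIntegers.coe_injective
    rw [map_pow, map_neg, map_ofNat]
    exact ha'
  · apply RingOfIntegers.coe_injective
    rw [map_add, map_add, map_pow, map_pow, map_one, map_zero]
    exact hb'

/-- the order of a primitive ninth root of unity -/
theorem ord9 {R : Type} [CommRing R] [IsDomain R] {t : R} (ht : t ^ 6 + t ^ 3 + 1 = 0)
    (h3 : (3 : R) ≠ 0) : orderOf t = 9 := by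
  have h9 : t ^ 9 = 1 := by linear_combination (t ^ 3 - 1) * ht
  have h : orderOf t = 3 ^ (1 + 1) := by
    refine orderOf_eq_prime_pow ?_ ?_
    · intro h
      norm_num at h
      apply h3
      have e : t ^ 6 = 1 := by
        have : t ^ 6 = (t ^ 3) ^ 2 := by ring
        rw [this, h, one_pow]
      rw [h, e] at ht
      linear_combination ht
    · norm_num
      exact h9
  rw [h]
  norm_num

section
variable {p : ℕ} [hp : Fact p.Prime] {L : Type} [Field L] [NumberField L] [IsGalois ℚ L]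
  {φ : 𝓞 L →+* AlgebraicClosure (ZMod p)} {g : Gal(L/ℚ)} {z : 𝓞 L}

/-- Frobenius on the ninth roots of unity -/
theorem frob9 (hφ : HasFrob p φ g) (hz : z ^ 6 + z ^ 3 + 1 = 0) (h3 : p ≠ 3) :
    g • z = z ^ (p % 9) := by
  have h30 : (3 : 𝓞 L) ≠ 0 := by
    intro h
    have h2 := congrArg (algebraMap (𝓞 L) L) h
    rw [map_zero, map_ofNat] at h2
    norm_num at h2
  have h30' : (3 : AlgebraicClosure (ZMod p)) ≠ 0 := by
    intro h
    have h1 : algebraMap (ZMod p) (AlgebraicClosure (ZMod p)) 3 =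
        algebraMap (ZMod p) (AlgebraicClosure (ZMod p)) 0 := by
      rw [map_ofNat, map_zero]; exact h
    have h3' : ((3 : ℕ) : ZMod p) = 0 := by exact_mod_cast Q283.TW.cast_inj h1
    rw [ZMod.natCast_eq_zero_iff] at h3'
    exact h3 ((Nat.prime_dvd_prime_iff_eq hp.out (by norm_num)).1 h3')
  have ht : φ z ^ 6 + φ z ^ 3 + 1 = 0 := by
    have := congrArg φ hz
    simpa only [map_add, map_pow, map_one, map_zero] using this
  have o1 := ord9 hz h30
  have o2 := ord9 ht h30'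
  have hprim : IsPrimitiveRoot z 9 := by
    rw [← o1]
    exact IsPrimitiveRoot.orderOf z
  have h9 : (g • z) ^ 9 = 1 := by
    rw [← smul_pow', hprim.pow_eq_one, smul_one]
  obtain ⟨i, hi, hzi⟩ := hprim.eq_pow_of_pow_eq_one h9
  have h6 := hφ z
  rw [← hzi, map_pow] at h6
  have hprim' : IsPrimitiveRoot (φ z) 9 := by
    rw [← o2]
    exact IsPrimitiveRoot.orderOf (φ z)
  have h8 : i = p % 9 := by
    refine hprim'.pow_inj hi (Nat.mod_lt _ (by norm_num)) ?_
    rw [h6]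
    have := pow_mod_orderOf (φ z) p
    rw [o2] at this
    exact this.symm
  rw [← hzi, h8]

end

section
variable {L : Type} [Field L] [NumberField L] [IsGalois ℚ L] {P : Finset ℕ} (E : Dat9 L P)

theorem Dat9.ord : orderOf E.z = 9 := by
  refine ord9 E.hz ?_
  intro h
  have h2 := congrArg (algebraMap (𝓞 L) L) h
  rw [map_zero, map_ofNat] at h2
  norm_num at h2

/-- the class of the automorphisms with given signs -/
def Dat9.C (u : P → ZMod 2) (w : ZMod 2) (r : ℕ) (g : Gal(L/ℚ)) : Prop :=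
  E.E.C u w g ∧ g • E.z = E.z ^ r

/-- the two classes have the same number of elements -/
theorem Dat9.card_C (g0 : Gal(L/ℚ)) (h1 : g0 • E.E.Z = E.E.Z) (h2 : g0 • E.E.A ^ 2 ≠ E.E.A ^ 2)
    (hg9 : g0 • E.z = E.z) (u : P → ZMod 2) (r : ℕ) :
    Nat.card {g : Gal(L/ℚ) // E.C u 0 r g} = Nat.card {g : Gal(L/ℚ) // E.C u 1 r g} := by
  obtain ⟨h, a1, a2, a3, a4⟩ : ∃ h : Gal(L/ℚ), h • E.E.Z = E.E.Z ∧ h • E.E.A = -E.E.A ∧
      (∀ p ∈ P, h (E.E.s p) = E.E.s p) ∧ h • E.z = E.z := by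
    have e0 : (g0 • E.E.A ^ 2) ^ 2 = (E.E.A ^ 2) ^ 2 := by
      rw [← smul_pow', ← pow_mul, E.E.hA, smul_neg]
      congr 1
      exact map_ofNat (MulSemiringAction.toRingHom Gal(L/ℚ) (𝓞 L) g0) 7
    have e1 : g0 • E.E.A ^ 2 = -E.E.A ^ 2 := by
      rcases sq_eq_sq_iff_eq_or_eq_neg.1 e0 with h | h
      · exact absurd h h2
      · exact h
    have e2 : (g0 • E.E.A) ^ 2 = (E.E.Z * E.E.A) ^ 2 := by
      rw [← smul_pow', e1]
      linear_combination (-E.E.A ^ 2) * E.E.hZ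
    refine ⟨g0 * g0, ?_, ?_, fun p hp => ?_, ?_⟩
    · rw [mul_smul, h1, h1]
    · rw [mul_smul]
      rcases sq_eq_sq_iff_eq_or_eq_neg.1 e2 with h | h
      · rw [h, smul_mul', h1, h]
        linear_combination E.E.A * E.E.hZ
      · rw [h, smul_neg, smul_mul', h1, h]
        linear_combination E.E.A * E.E.hZ
    · have hm : (g0 * g0) (E.E.s p) = g0 (g0 (E.E.s p)) := rfl
      rw [hm]
      rcases gal_sqrt g0 (E.E.hs p hp) with h | h
      · rw [h, h]
      · rw [h, map_neg, h, neg_neg]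
    · rw [mul_smul, hg9, hg9]
  have hA2 : h • E.E.A ^ 2 = E.E.A ^ 2 := by rw [smul_pow', a2, neg_sq]
  have hng : ∀ (g : Gal(L/ℚ)) (p : P), ng (g * h) (E.E.s p) = ng g (E.E.s p) := by
    intro g p
    have hm : (g * h) (E.E.s p) = g (E.E.s p) := by
      show g (h (E.E.s p)) = _
      rw [a3 p p.2]
    unfold ng
    rw [hm]
  have hgA : ∀ g : Gal(L/ℚ), (g * h) • E.E.A = -(g • E.E.A) := by
    intro g
    rw [mul_smul, a2, smul_neg]
  have hpm : ∀ g : Gal(L/ℚ), g • E.E.A ^ 2 = E.E.A ^ 2 → g • E.E.A = E.E.A ∨ g • E.E.A = -E.E.A := by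
    intro g hg
    rw [smul_pow'] at hg
    exact sq_eq_sq_iff_eq_or_eq_neg.1 hg
  have hne := two_mul_ne E.E.A0
  have key0 : ∀ g : Gal(L/ℚ), E.C u 0 r g → E.C u 1 r (g * h) := by
    rintro g ⟨⟨b1, b2, b3, b4⟩, b5⟩
    refine ⟨⟨by rw [mul_smul, a1, b1], by rw [mul_smul, hA2, b2], fun p => by rw [hng, b3], ?_⟩,
      by rw [mul_smul, a4, b5]⟩
    have hg : g • E.E.A = E.E.A := by
      by_contra hc
      rw [if_neg hc] at b4
      exact absurd b4 (by decide)
    rw [hgA, hg, if_neg hne]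
  have key1 : ∀ g : Gal(L/ℚ), E.C u 1 r g → E.C u 0 r (g * h) := by
    rintro g ⟨⟨b1, b2, b3, b4⟩, b5⟩
    refine ⟨⟨by rw [mul_smul, a1, b1], by rw [mul_smul, hA2, b2], fun p => by rw [hng, b3], ?_⟩,
      by rw [mul_smul, a4, b5]⟩
    have hg : g • E.E.A = -E.E.A := by
      rcases hpm g b2 with hc | hc
      · rw [if_pos hc] at b4
        exact absurd b4 (by decide)
      · exact hc
    rw [hgA, hg, neg_neg, if_pos rfl]
  apply le_antisymm
  · exact Nat.card_le_card_of_injective (fun g => ⟨g.1 * h, key0 g.1 g.2⟩) (fun a b hab => by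
      apply Subtype.ext
      exact mul_right_cancel (congrArg Subtype.val hab))
  · exact Nat.card_le_card_of_injective (fun g => ⟨g.1 * h, key1 g.1 g.2⟩) (fun a b hab => by
      apply Subtype.ext
      exact mul_right_cancel (congrArg Subtype.val hab))

end

theorem rs_lt : ∀ t, rs t < 9 := by decide

/-- the law of all the symbols, at one point -/
theorem law_one (hP : ∀ p ∈ P, p.Prime ∧ p % 4 = 1) (u : P → ZMod 2) (w : ZMod 2) (t : Fin 6) :
    HD (fun q => (Sp q ∧ q % 9 = rs t) ∧ q ∉ P ∧ (∀ p : P, nsq p q = u p) ∧ nf q = w)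
      (1 / (48 * 2 ^ P.card)) := by
  obtain ⟨L, _, _, _, ⟨E⟩⟩ := exists_dat9 P
  have hprim : IsPrimitiveRoot E.z 9 := by
    rw [← E.ord]
    exact IsPrimitiveRoot.orderOf E.z
  -- the density of each class
  have hcls : ∀ w : ZMod 2,
      HD (fun q => (Sp q ∧ q % 9 = rs t) ∧ q ∉ P ∧ (∀ p : P, nsq p q = u p) ∧ nf q = w)
      ((Nat.card {g : Gal(L/ℚ) // E.C u w (rs t) g} : ℝ) / (Nat.card Gal(L/ℚ) : ℝ)) := by
    intro w
    have hP0 : 0 < ∏ p ∈ P, p := Finset.prod_pos fun p hp => (hP p hp).1.pos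
    refine Cls.dens_class (E.C u w (rs t)) _ (42 * ∏ p ∈ P, p) (by positivity) ?_
    intro q hq hqd φ g hφ
    have hq2 : q ≠ 2 := by
      rintro rfl
      exact hqd (Dvd.dvd.mul_right (by norm_num) _)
    have hq3 : q ≠ 3 := by
      rintro rfl
      exact hqd (Dvd.dvd.mul_right (by norm_num) _)
    have hq7 : q ≠ 7 := by
      rintro rfl
      exact hqd (Dvd.dvd.mul_right (by norm_num) _)
    have hqP : q ∉ P := fun h => hqd ((Finset.dvd_prod_of_mem (fun x : ℕ => x) h).mul_left _)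
    have hqpr := hq.out
    -- the symbols
    have k1 : g • E.E.Z = E.E.Z ↔ q % 4 = 1 := Q283.GA.frob_z E.E.hZ hφ hq2
    have k2 : g • E.E.A ^ 2 = E.E.A ^ 2 ↔ IsSquare (-7 : ZMod q) := by
      have hs : (algebraMap (𝓞 L) L (E.E.A ^ 2)) ^ 2 = ((-7 : ℤ) : L) := by
        rw [← map_pow, ← pow_mul, E.E.hA, map_neg, map_ofNat]
        push_cast
        rfl
      have hne : ((-7 : ℤ) : ZMod q) ≠ 0 := by
        push_cast
        rw [neg_ne_zero]
        have : ((7 : ℕ) : ZMod q) ≠ 0 := by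
          rw [Ne, ZMod.natCast_eq_zero_iff]
          intro h
          exact hq7 ((Nat.prime_dvd_prime_iff_eq hqpr (by norm_num)).1 h)
        exact_mod_cast this
      have f := frob_sqrt hφ hs hq2 hne
      push_cast at f
      rw [f]
      constructor
      · intro h
        exact congrArg (algebraMap (𝓞 L) L) h
      · intro h
        exact RingOfIntegers.coe_injective h
    have k3 : ∀ h4 : q % 4 = 1, ∀ p : P, ng g (E.E.s p) = nsq p q := by
      intro h4 p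
      have hpp := hP p p.2
      have hne : (((p : ℕ) : ℤ) : ZMod q) ≠ 0 := by
        rw [Int.cast_natCast, Ne, ZMod.natCast_eq_zero_iff]
        intro h
        have := (Nat.prime_dvd_prime_iff_eq hqpr hpp.1).1 h
        exact hqP (this ▸ p.2)
      have f := frob_sqrt hφ (E.E.hs p p.2) hq2 hne
      have hpq : (p : ℕ) ≠ q := fun h => hqP (h ▸ p.2)
      have r := recip hpp.1 hqpr hpp.2 hq2
      rw [Int.cast_natCast, ← r] at f
      unfold ng nsq
      by_cases hc : IsSquare ((q : ℕ) : ZMod p)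
      · rw [if_pos (f.1 hc), if_pos hc]
      · rw [if_neg (fun h => hc (f.2 h)), if_neg hc]
    have k4 : ∀ h4 : q % 4 = 1, (if g • E.E.A = E.E.A then (0 : ZMod 2) else 1) = nf q := by
      intro h4
      have f := frob_fourth hφ E.E.hA E.E.hZ hq2 hq7 h4
      unfold nf
      by_cases hc : ∃ y : ZMod q, y ^ 4 = -7
      · rw [if_pos (f.2 hc), if_pos hc]
      · rw [if_neg (fun h => hc (f.1 h)), if_neg hc]
    have k5 : g • E.z = E.z ^ (rs t) ↔ q % 9 = rs t := by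
      rw [frob9 hφ E.hz hq3]
      constructor
      · intro h
        exact hprim.pow_inj (Nat.mod_lt _ (by norm_num)) (rs_lt t) h
      · intro h
        rw [h]
    unfold Dat9.C Dat.C Sp
    rw [k1, k2, k5]
    constructor
    · rintro ⟨⟨a1, a2, a3, a4⟩, a5⟩
      refine ⟨⟨⟨a1, a2⟩, a5⟩, hqP, fun p => ?_, ?_⟩
      · rw [← k3 a1 p, a3]
      · rw [← k4 a1, a4]
    · rintro ⟨⟨⟨a1, a2⟩, a5⟩, -, a3, a4⟩
      refine ⟨⟨a1, a2, fun p => ?_, ?_⟩, a5⟩
      · rw [k3 a1 p, a3]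
      · rw [k4 a1, a4]
  -- an automorphism that changes the sign of the square root of `-7`
  obtain ⟨D1, hD1, htor⟩ := torsor L
  obtain ⟨g0, hg1, hg2, hg3⟩ : ∃ g0 : Gal(L/ℚ), g0 • E.E.Z = E.E.Z ∧ g0 • E.E.A ^ 2 ≠ E.E.A ^ 2 ∧
      g0 • E.z = E.z := by
    obtain ⟨q, hqB, hq, hqk⟩ := Nat.forall_exists_prime_gt_and_modEq (D1 + 252) (q := 252) (a := 145)
      (by norm_num) (by norm_num)
    haveI : Fact q.Prime := ⟨hq⟩
    have hq28 : q % 252 = 145 := hqk
    have hqD : ¬ q ∣ D1 := fun h => by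
      have := Nat.le_of_dvd hD1 h
      omega
    have ht := htor q hqD
    obtain ⟨φ⟩ := nonempty_hom ht
    obtain ⟨g, hφ⟩ := exists_frob ht φ
    have hq2 : q ≠ 2 := by omega
    have hq3 : q ≠ 3 := by omega
    have hq7 : q ≠ 7 := by omega
    refine ⟨g, (Q283.GA.frob_z E.E.hZ hφ hq2).2 (by omega), ?_, ?_⟩
    · intro h
      have hs : (algebraMap (𝓞 L) L (E.E.A ^ 2)) ^ 2 = ((-7 : ℤ) : L) := by
        rw [← map_pow, ← pow_mul, E.E.hA, map_neg, map_ofNat]
        push_cast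
        rfl
      have hne : ((-7 : ℤ) : ZMod q) ≠ 0 := by
        push_cast
        rw [neg_ne_zero]
        have : ((7 : ℕ) : ZMod q) ≠ 0 := by
          rw [Ne, ZMod.natCast_eq_zero_iff]
          intro h
          exact hq7 ((Nat.prime_dvd_prime_iff_eq hq (by norm_num)).1 h)
        exact_mod_cast this
      have f := (frob_sqrt hφ hs hq2 hne).2 (congrArg (algebraMap (𝓞 L) L) h)
      push_cast at f
      rw [Q283.TW.neg7_iff q hq2 hq7] at f
      omega
    · rw [frob9 hφ E.hz hq3]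
      have : q % 9 = 1 := by omega
      rw [this, pow_one]
  have hcard := E.card_C g0 hg1 hg2 hg3 u (rs t)
  -- the sum of the two densities
  have h01 : ∀ x : ZMod 2, x = 0 ∨ x = 1 := by decide
  have heq : ∑ w : ZMod 2,
      (Nat.card {g : Gal(L/ℚ) // E.C u w (rs t) g} : ℝ) / (Nat.card Gal(L/ℚ) : ℝ) =
      1 / (24 * 2 ^ P.card) := by
    have hs := HD.sum (univ : Finset (ZMod 2))
      (fun w q => (Sp q ∧ q % 9 = rs t) ∧ q ∉ P ∧ (∀ p : P, nsq p q = u p) ∧ nf q = w) _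
      (fun w _ => hcls w)
      (fun i _ j _ hij q h1 h2 => hij (h1.2.2.2.symm.trans h2.2.2.2))
    refine hs.uniq ((law_s hP u t).congr' 0 fun q _ _ => ?_)
    constructor
    · rintro ⟨a, b, c⟩
      exact ⟨nf q, Finset.mem_univ _, a, b, c, rfl⟩
    · rintro ⟨w, -, a, b, c, -⟩
      exact ⟨a, b, c⟩
  have huniv : (univ : Finset (ZMod 2)) = {0, 1} := by decide
  rw [huniv, Finset.sum_pair (by decide)] at heq
  have hval : ∀ w : ZMod 2,
      (Nat.card {g : Gal(L/ℚ) // E.C u w (rs t) g} : ℝ) / (Nat.card Gal(L/ℚ) : ℝ) =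
      1 / (48 * 2 ^ P.card) := by
    have e1 : (1 : ℝ) / (48 * 2 ^ P.card) = (1 / (24 * 2 ^ P.card)) / 2 := by
      field_simp
      norm_num
    rw [e1, ← heq, hcard]
    intro w
    rcases h01 w with rfl | rfl
    · rw [hcard]; ring
    · ring
  rw [← hval w]
  exact hcls w

end Pool.Agent.H20PT.JL.Z9
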